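import Mathlib

/-!
# MP_763071_co : coarse Dilworth theorem

A finite poset without `r` pairwise incomparable `k`-chains has boundedly many chains which meet
every interval of large height.
-/

set_option autoImplicit false

namespace Pool.Agent.MP763071.M

variable {P : Type} [PartialOrder P]

/-- some element of `D` lies between two elements of `s` -/
def Met (D : Set P) (s : Finset P) : Prop := ∃ w ∈ D, ∃ x ∈ s, ∃ y ∈ s, x ≤ w ∧ w ≤ y

/-- every chain of `F` with more than `f` elements is met by `X` or by one of `M` chains -/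
def Mt (X F : Set P) (M f : ℕ) : Prop :=
  ∃ D : ℕ → Set P, (∀ i, IsChain (· ≤ ·) (D i)) ∧
    ∀ s : Finset P, IsChain (· ≤ ·) (s : Set P) → (∀ x ∈ s, x ∈ F) → f < s.card →
      Met X s ∨ ∃ i < M, Met (D i) s

theorem Met.mono {D : Set P} {s s' : Finset P} (h : Met D s) (hs : s ⊆ s') : Met D s' := by
  obtain ⟨w, hw, x, hx, y, hy, h1, h2⟩ := h
  exact ⟨w, hw, x, hs hx, y, hs hy, h1, h2⟩

theorem Mt.mono {X F G : Set P} {M M' f f' : ℕ} (h : Mt X F M f) (hG : G ⊆ F) (hM : M ≤ M')
    (hf : f ≤ f') : Mt X G M' f' := by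
  obtain ⟨D, h1, h2⟩ := h
  refine ⟨D, h1, fun s hs hsG hc => ?_⟩
  rcases h2 s hs (fun x hx => hG (hsG x hx)) (by omega) with h3 | ⟨i, hi, h3⟩
  · exact Or.inl h3
  · exact Or.inr ⟨i, by omega, h3⟩

theorem Mt.ofEmpty {X F : Set P} {M f : ℕ} (h : Mt ∅ F M f) : Mt X F M f := by
  obtain ⟨D, h1, h2⟩ := h
  refine ⟨D, h1, fun s hs hsG hc => ?_⟩
  rcases h2 s hs hsG hc with ⟨w, hw, _⟩ | h3
  · exact absurd hw (Set.notMem_empty w)
  · exact Or.inr h3

theorem Mt.short {X F : Set P} {f : ℕ} (h : ∀ s : Finset P, IsChain (· ≤ ·) (s : Set P) →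
    (∀ x ∈ s, x ∈ F) → s.card ≤ f) (M : ℕ) : Mt X F M f := by
  refine ⟨fun _ => ∅, fun _ => Set.pairwise_empty _, fun s hs hsF hc => ?_⟩
  have := h s hs hsF
  omega

theorem Mt.union {X F G : Set P} {M M' f f' : ℕ} (hF : Mt X F M f) (hG : Mt X G M' f') :
    Mt X (F ∪ G) (M + M') (f + f') := by
  classical
  obtain ⟨D, h1, h2⟩ := hF
  obtain ⟨D', h3, h4⟩ := hG
  refine ⟨fun i => if i < M then D i else D' (i - M), fun i => ?_, fun s hs hsF hc => ?_⟩
  · show IsChain (· ≤ ·) (if i < M then D i else D' (i - M))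
    split_ifs
    · exact h1 i
    · exact h3 _
  · have hcard : s.card ≤ (s.filter (fun x => x ∈ F)).card + (s.filter (fun x => x ∈ G)).card := by
      refine (Finset.card_le_card (t := s.filter (fun x => x ∈ F) ∪ s.filter (fun x => x ∈ G))
        ?_).trans (Finset.card_union_le _ _)
      intro x hx
      rw [Finset.mem_union, Finset.mem_filter, Finset.mem_filter]
      rcases hsF x hx with h | h
      · exact Or.inl ⟨hx, h⟩
      · exact Or.inr ⟨hx, h⟩
    by_cases h5 : f < (s.filter (fun x => x ∈ F)).card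
    · rcases h2 _ (hs.mono (by
        intro x hx
        exact Finset.mem_coe.2 (Finset.mem_of_mem_filter x (Finset.mem_coe.1 hx))))
        (fun x hx => (Finset.mem_filter.1 hx).2) h5 with h6 | ⟨i, hi, h6⟩
      · exact Or.inl (h6.mono (Finset.filter_subset _ _))
      · refine Or.inr ⟨i, by omega, ?_⟩
        show Met (if i < M then D i else D' (i - M)) s
        rw [if_pos hi]
        exact h6.mono (Finset.filter_subset _ _)
    · rcases h4 (s.filter (fun x => x ∈ G)) (hs.mono (by
        intro x hx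
        exact Finset.mem_coe.2 (Finset.mem_of_mem_filter x (Finset.mem_coe.1 hx))))
        (fun x hx => (Finset.mem_filter.1 hx).2) (by omega) with h6 | ⟨i, hi, h6⟩
      · exact Or.inl (h6.mono (Finset.filter_subset _ _))
      · refine Or.inr ⟨M + i, by omega, ?_⟩
        show Met (if M + i < M then D (M + i) else D' (M + i - M)) s
        rw [if_neg (by omega), Nat.add_sub_cancel_left]
        exact h6.mono (Finset.filter_subset _ _)

/-- enumeration of a finite chain -/
theorem enum {s : Finset P} (hs : IsChain (· ≤ ·) (s : Set P)) :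
    ∃ z : Fin s.card → P, StrictMono z ∧ ∀ i, z i ∈ s := by
  classical
  let _ : LinearOrder {x // x ∈ s} :=
    { (inferInstance : PartialOrder {x // x ∈ s}) with
      le_total := fun a b => hs.total a.2 b.2
      toDecidableLE := Classical.decRel _ }
  have hcard : Fintype.card {x // x ∈ s} = s.card := Fintype.card_coe s
  let e := Fintype.orderIsoFinOfCardEq {x // x ∈ s} hcard
  refine ⟨fun i => (e i).1, fun i j hij => ?_, fun i => (e i).2⟩
  exact e.strictMono hij

/-- a maximum chain `ch 1 < … < ch N` of `F`, a height function and the positions -/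
structure Sp (F : Set P) (N : ℕ) (ch : ℕ → P) (h lo hi : P → ℕ) : Prop where
  hlt : ∀ x ∈ F, ∀ y ∈ F, x < y → h x < h y
  hN : ∀ x ∈ F, h x ≤ N
  chF : ∀ i, 1 ≤ i → i ≤ N → ch i ∈ F
  hch : ∀ i, 1 ≤ i → i ≤ N → h (ch i) = i
  chlt : ∀ i j, 1 ≤ i → i < j → j ≤ N → ch i < ch j
  lo_le : ∀ x, lo x ≤ N
  lo_iff : ∀ x i, 1 ≤ i → i ≤ N → (ch i ≤ x ↔ i ≤ lo x)
  hi_pos : ∀ x, 1 ≤ hi x
  hi_le : ∀ x, hi x ≤ N + 1
  hi_iff : ∀ x i, 1 ≤ i → i ≤ N → (x ≤ ch i ↔ hi x ≤ i)

theorem exists_sp [Fintype P] [Nonempty P] (F : Set P) :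
    ∃ (N : ℕ) (ch : ℕ → P) (h lo hi : P → ℕ), Sp F N ch h lo hi := by
  classical
  obtain ⟨p0⟩ : Nonempty P := inferInstance
  let CH : Finset (Finset P) := Finset.univ.filter
    (fun s => IsChain (· ≤ ·) (s : Set P) ∧ ∀ x ∈ s, x ∈ F)
  have hCH : ∀ s : Finset P, s ∈ CH ↔ IsChain (· ≤ ·) (s : Set P) ∧ ∀ x ∈ s, x ∈ F := by
    intro s
    simp only [CH, Finset.mem_filter, Finset.mem_univ, true_and]
  have hne : CH.Nonempty := ⟨∅, by
    rw [hCH]
    refine ⟨?_, fun x hx => absurd hx (Finset.notMem_empty x)⟩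
    rw [Finset.coe_empty]
    exact Set.pairwise_empty _⟩
  obtain ⟨s0, hs0, hs0N⟩ := Finset.exists_mem_eq_sup CH hne Finset.card
  rw [hCH] at hs0
  obtain ⟨N, hNeq, hNmax⟩ : ∃ N, N = s0.card ∧ ∀ s ∈ CH, s.card ≤ N :=
    ⟨CH.sup Finset.card, hs0N, fun s hs => Finset.le_sup (f := Finset.card) hs⟩
  obtain ⟨z, hz, hzs⟩ := enum hs0.1
  let h : P → ℕ := fun x => (CH.filter (fun s => ∀ y ∈ s, y ≤ x)).sup Finset.card
  have hh : ∀ x, ∀ s ∈ CH, (∀ y ∈ s, y ≤ x) → s.card ≤ h x := by
    intro x s hs hy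
    exact Finset.le_sup (f := Finset.card) (Finset.mem_filter.2 ⟨hs, hy⟩)
  have hex : ∀ x, ∃ s ∈ CH, (∀ y ∈ s, y ≤ x) ∧ s.card = h x := by
    intro x
    have hne' : (CH.filter (fun s => ∀ y ∈ s, y ≤ x)).Nonempty := ⟨∅, by
      rw [Finset.mem_filter, hCH]
      refine ⟨⟨?_, fun x hx => absurd hx (Finset.notMem_empty x)⟩,
        fun x hx => absurd hx (Finset.notMem_empty x)⟩
      rw [Finset.coe_empty]
      exact Set.pairwise_empty _⟩
    obtain ⟨s, hs, hs'⟩ := Finset.exists_mem_eq_sup _ hne' Finset.card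
    rw [Finset.mem_filter] at hs
    exact ⟨s, hs.1, hs.2, hs'.symm⟩
  have hhN : ∀ x, h x ≤ N := by
    intro x
    obtain ⟨s, hs, _, hs'⟩ := hex x
    rw [← hs']
    exact hNmax s hs
  have hlt : ∀ x ∈ F, ∀ y ∈ F, x < y → h x < h y := by
    intro x hx y hy hxy
    obtain ⟨s, hs, hsx, hs'⟩ := hex x
    have hys : y ∉ s := fun hys => absurd (hsx y hys) hxy.not_ge
    have h1 : insert y s ∈ CH := by
      rw [hCH] at hs ⊢
      refine ⟨?_, ?_⟩
      · rw [Finset.coe_insert]
        refine hs.1.insert ?_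
        intro b hb _
        exact Or.inr ((hsx b hb).trans hxy.le)
      · intro w hw
        rcases Finset.mem_insert.1 hw with rfl | hw
        · exact hy
        · exact hs.2 w hw
    have h2 := hh y (insert y s) h1 (by
      intro w hw
      rcases Finset.mem_insert.1 hw with rfl | hw
      · exact le_rfl
      · exact (hsx w hw).trans hxy.le)
    rw [Finset.card_insert_of_notMem hys] at h2
    omega
  let ch : ℕ → P := fun i => if hi : i - 1 < s0.card then z ⟨i - 1, hi⟩ else p0
  have hch : ∀ i, ∀ (_ : 1 ≤ i) (_ : i ≤ N), ch i = z ⟨i - 1, by omega⟩ := by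
    intro i h1 h2
    exact dif_pos (by omega)
  have hchF : ∀ i, 1 ≤ i → i ≤ N → ch i ∈ F := by
    intro i h1 h2
    rw [hch i h1 h2]
    exact hs0.2 _ (hzs _)
  have hchlt : ∀ i j, 1 ≤ i → i < j → j ≤ N → ch i < ch j := by
    intro i j h1 h2 h3
    rw [hch i h1 (by omega), hch j (by omega) h3]
    apply hz
    rw [Fin.lt_def]
    show i - 1 < j - 1
    omega
  have hup : ∀ d i, 1 ≤ i → i + d = N → h (ch i) ≤ i := by
    intro d
    induction d with
    | zero =>
      intro i h1 h2
      have := hhN (ch i)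
      omega
    | succ d ih =>
      intro i h1 h2
      have h3 := ih (i + 1) (by omega) (by omega)
      have h4 := hlt (ch i) (hchF i h1 (by omega)) (ch (i + 1)) (hchF _ (by omega) (by omega))
        (hchlt i (i + 1) h1 (by omega) (by omega))
      omega
  have hlow : ∀ i, 1 ≤ i → i ≤ N → i ≤ h (ch i) := by
    intro i h1
    induction i, h1 using Nat.le_induction with
    | base =>
      intro h2
      have h3 := hh (ch 1) {ch 1} (by
        rw [hCH]
        refine ⟨?_, ?_⟩
        · rw [Finset.coe_singleton]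
          exact Set.pairwise_singleton _ _
        · intro x hx
          rw [Finset.mem_singleton] at hx
          rw [hx]
          exact hchF 1 le_rfl h2) (by
        intro y hy
        rw [Finset.mem_singleton] at hy
        rw [hy])
      rw [Finset.card_singleton] at h3
      exact h3
    | succ i h1 ih =>
      intro h2
      have h3 := ih (by omega)
      have h4 := hlt (ch i) (hchF i h1 (by omega)) (ch (i + 1)) (hchF _ (by omega) (by omega))
        (hchlt i (i + 1) h1 (by omega) (by omega))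
      omega
  have hhi : ∀ x : P, ∃ i, i = N + 1 ∨ (1 ≤ i ∧ i ≤ N ∧ x ≤ ch i) := fun x => ⟨N + 1, Or.inl rfl⟩
  refine ⟨N, ch, h, fun x => Nat.findGreatest (fun i => 1 ≤ i ∧ ch i ≤ x) N,
    fun x => Nat.find (hhi x), hlt, fun x _ => hhN x, hchF, ?_, hchlt, ?_, ?_, ?_, ?_, ?_⟩
  · intro i h1 h2
    exact le_antisymm (hup (N - i) i h1 (by omega)) (hlow i h1 h2)
  · intro x
    exact Nat.findGreatest_le N
  · intro x i h1 h2
    constructor
    · intro h3
      exact Nat.le_findGreatest h2 ⟨h1, h3⟩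
    · intro h3
      have h3' : i ≤ Nat.findGreatest (fun i => 1 ≤ i ∧ ch i ≤ x) N := h3
      have h4 := Nat.findGreatest_of_ne_zero (P := fun i => 1 ≤ i ∧ ch i ≤ x) (n := N)
        (m := Nat.findGreatest (fun i => 1 ≤ i ∧ ch i ≤ x) N) rfl (by omega)
      rcases h3'.eq_or_lt with h5 | h5
      · rw [h5]
        exact h4.2
      · exact (hchlt i _ h1 h5 (Nat.findGreatest_le N)).le.trans h4.2
  · intro x
    show 1 ≤ Nat.find (hhi x)
    rcases Nat.find_spec (hhi x) with h1 | h1
    · omega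
    · exact h1.1
  · intro x
    exact Nat.find_min' (hhi x) (Or.inl rfl)
  · intro x i h1 h2
    constructor
    · intro h3
      exact Nat.find_min' (hhi x) (Or.inr ⟨h1, h2, h3⟩)
    · intro h3
      have h3' : Nat.find (hhi x) ≤ i := h3
      rcases Nat.find_spec (hhi x) with h4 | ⟨h4, h5, h6⟩
      · omega
      · rcases h3'.eq_or_lt with h7 | h7
        · rw [← h7]
          exact h6
        · exact h6.trans (hchlt _ i h4 h7 h2).le

/-- greedy thresholds -/
theorem thresholds (Sm : ℕ → ℕ → Prop) (K : ℕ) (h1 : ∀ s t, t ≤ s → Sm s t)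
    (h2 : ∀ s u, K ≤ s → Sm s u) :
    ∃ (n : ℕ) (t : ℕ → ℕ), t 0 = 0 ∧ (∀ j < n, t j < t (j + 1)) ∧
      (∀ j < n, ¬ Sm (t j) (t (j + 1))) ∧ (∀ j < n, Sm (t j) (t (j + 1) - 1)) ∧
      ∀ u, Sm (t n) u := by
  classical
  let nx : ℕ → ℕ := fun s => if h : ∃ t, ¬ Sm s t then Nat.find h else s
  let t : ℕ → ℕ := fun j => Nat.rec 0 (fun _ s => nx s) j
  have hts : ∀ j, t (j + 1) = nx (t j) := fun j => rfl
  have hnx : ∀ s (h : ∃ t, ¬ Sm s t), nx s = Nat.find h := by
    intro s h
    exact dif_pos h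
  have hstep : ∀ j, (∃ u, ¬ Sm (t j) u) → t j < t (j + 1) := by
    intro j h
    rw [hts, hnx _ h]
    by_contra hcon
    exact Nat.find_spec h (h1 _ _ (not_lt.1 hcon))
  have hex : ∃ j, ∀ u, Sm (t j) u := by
    by_contra hcon
    push Not at hcon
    have hge : ∀ j, j ≤ t j := by
      intro j
      induction j with
      | zero => exact Nat.zero_le _
      | succ j ih =>
        have := hstep j (hcon j)
        omega
    obtain ⟨u, hu⟩ := hcon K
    exact hu (h2 _ _ (hge K))
  have hlt : ∀ j < Nat.find hex, ∃ u, ¬ Sm (t j) u := by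
    intro j hj
    have := Nat.find_min hex hj
    push Not at this
    exact this
  refine ⟨Nat.find hex, t, rfl, fun j hj => hstep j (hlt j hj), ?_, ?_, Nat.find_spec hex⟩
  · intro j hj
    have h3 := Nat.find_spec (hlt j hj)
    rw [← hnx _ (hlt j hj), ← hts] at h3
    exact h3
  · intro j hj
    have h3 : t (j + 1) = Nat.find (hlt j hj) := by rw [hts, hnx _ (hlt j hj)]
    have h4 : t j < t (j + 1) := hstep j (hlt j hj)
    have := Nat.find_min (hlt j hj) (m := t (j + 1) - 1) (by omega)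
    rw [not_not] at this
    exact this

namespace Sp

variable {F : Set P} {N : ℕ} {ch : ℕ → P} {h lo hi : P → ℕ}

/-- the maximum chain -/
def X (N : ℕ) (ch : ℕ → P) : Set P := {w | ∃ i, 1 ≤ i ∧ i ≤ N ∧ w = ch i}

theorem lo_mono (S : Sp F N ch h lo hi) {x y : P} (hxy : x ≤ y) : lo x ≤ lo y := by
  rcases Nat.eq_zero_or_pos (lo x) with h0 | h0
  · omega
  · have h1 := S.lo_le x
    exact (S.lo_iff y _ h0 h1).1 (((S.lo_iff x _ h0 h1).2 le_rfl).trans hxy)

theorem hi_mono (S : Sp F N ch h lo hi) {x y : P} (hxy : x ≤ y) : hi x ≤ hi y := by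
  rcases Nat.lt_or_ge N (hi y) with h0 | h0
  · have := S.hi_le x
    omega
  · exact (S.hi_iff x _ (S.hi_pos y) h0).1 (hxy.trans ((S.hi_iff y _ (S.hi_pos y) h0).2 le_rfl))

theorem between (S : Sp F N ch h lo hi) {x y : P} (hxy : hi x ≤ lo y) :
    ∃ w ∈ X N ch, x ≤ w ∧ w ≤ y := by
  have h1 := S.lo_le y
  have h2 := S.hi_pos x
  exact ⟨ch (hi x), ⟨hi x, h2, by omega, rfl⟩, (S.hi_iff x _ h2 (by omega)).2 le_rfl,
    (S.lo_iff y _ h2 (by omega)).2 hxy⟩

theorem isChain_X (S : Sp F N ch h lo hi) : IsChain (· ≤ ·) (X N ch) := by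
  rintro w ⟨i, h1, h2, rfl⟩ w' ⟨j, h3, h4, rfl⟩ hne
  rcases lt_trichotomy i j with h5 | h5 | h5
  · exact Or.inl (S.chlt i j h1 h5 h4).le
  · exact absurd (by rw [h5]) hne
  · exact Or.inr (S.chlt j i h3 h5 h2).le

theorem seg_short (S : Sp F N ch h lo hi) {a b : ℕ} {s : Finset P}
    (hs : IsChain (· ≤ ·) (s : Set P)) (hsF : ∀ x ∈ s, x ∈ F)
    (hab : ∀ x ∈ s, a ≤ lo x ∧ hi x ≤ b) : s.card ≤ b + 1 - a := by
  classical
  have hinj : Set.InjOn h (s : Set P) := by
    intro x hx y hy hxy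
    by_contra hne
    rcases hs hx hy hne with h1 | h1
    · have := S.hlt x (hsF x hx) y (hsF y hy) (lt_of_le_of_ne h1 hne)
      omega
    · have := S.hlt y (hsF y hy) x (hsF x hx) (lt_of_le_of_ne h1 (Ne.symm hne))
      omega
  rw [← Finset.card_image_of_injOn hinj, ← Nat.card_Icc]
  apply Finset.card_le_card
  intro v hv
  obtain ⟨x, hx, rfl⟩ := Finset.mem_image.1 hv
  have hxF := hsF x hx
  obtain ⟨h1, h2⟩ := hab x hx
  rw [Finset.mem_Icc]
  constructor
  · rcases Nat.eq_zero_or_pos a with h0 | h0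
    · omega
    · have h3 := S.lo_le x
      have h4 := (S.lo_iff x a h0 (by omega)).2 h1
      have h5 := S.hch a h0 (by omega)
      rcases h4.eq_or_lt with h6 | h6
      · rw [← h6, h5]
      · have := S.hlt _ (S.chF a h0 (by omega)) x hxF h6
        omega
  · rcases Nat.lt_or_ge N b with h0 | h0
    · have := S.hN x hxF
      omega
    · have h3 := S.hi_pos x
      have h4 := (S.hi_iff x b (by omega) h0).2 h2
      have h5 := S.hch b (by omega) h0
      rcases h4.eq_or_lt with h6 | h6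
      · rw [h6, h5]
      · have := S.hlt x hxF _ (S.chF b (by omega) h0) h6
        omega

/-- a family of pieces which lie in consecutive intervals -/
theorem family (S : Sp F N ch h lo hi) (idx : P → ℕ) {G : Set P} (A B : ℕ → ℕ)
    (hGA : ∀ x ∈ G, A (idx x) ≤ lo x ∧ hi x ≤ B (idx x))
    (hAB : ∀ x ∈ G, ∀ y ∈ G, idx x < idx y → B (idx x) ≤ A (idx y)) {M f : ℕ}
    (hM : ∀ j, Mt ∅ {x | x ∈ G ∧ idx x = j} M f) : Mt (X N ch) G M f := by
  classical
  choose D hD1 hD2 using hM
  refine ⟨fun i => {w | ∃ x ∈ G, A (idx x) ≤ lo w ∧ hi w ≤ B (idx x) ∧ w ∈ D (idx x) i}, ?_, ?_⟩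
  · rintro i w ⟨x, hx, h1, h2, h3⟩ w' ⟨x', hx', h1', h2', h3'⟩ hne
    rcases lt_trichotomy (idx x) (idx x') with h4 | h4 | h4
    · have h5 := hAB x hx x' hx' h4
      obtain ⟨v, _, hv1, hv2⟩ := S.between (x := w) (y := w') (by omega)
      exact Or.inl (hv1.trans hv2)
    · rw [← h4] at h3'
      exact hD1 (idx x) i h3 h3' hne
    · have h5 := hAB x' hx' x hx h4
      obtain ⟨v, _, hv1, hv2⟩ := S.between (x := w') (y := w) (by omega)
      exact Or.inr (hv1.trans hv2)
  · intro s hs hsG hc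
    by_cases hex : ∃ x ∈ s, ∃ y ∈ s, idx x < idx y
    · obtain ⟨x, hx, y, hy, hxy⟩ := hex
      left
      have h1 := hAB x (hsG x hx) y (hsG y hy) hxy
      have h2 := (hGA x (hsG x hx)).2
      have h3 := (hGA y (hsG y hy)).1
      obtain ⟨v, hv, hv1, hv2⟩ := S.between (x := x) (y := y) (by omega)
      exact ⟨v, hv, x, hx, y, hy, hv1, hv2⟩
    · push Not at hex
      have hne : s.Nonempty := by
        rw [← Finset.card_pos]
        omega
      obtain ⟨x0, hx0⟩ := hne
      rcases hD2 (idx x0) s hs (fun x hx => ⟨hsG x hx,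
        le_antisymm (hex x0 hx0 x hx) (hex x hx x0 hx0)⟩) hc with ⟨w, hw, _⟩ | ⟨i, hi', w, hw, x, hx, y, hy, h1, h2⟩
      · exact absurd hw (Set.notMem_empty w)
      · right
        refine ⟨i, hi', w, ⟨x0, hsG x0 hx0, ?_, ?_, hw⟩, x, hx, y, hy, h1, h2⟩
        · have h3 := (hGA x (hsG x hx)).1
          have h4 : idx x = idx x0 := le_antisymm (hex x0 hx0 x hx) (hex x hx x0 hx0)
          rw [h4] at h3
          exact h3.trans (S.lo_mono h1)
        · have h3 := (hGA y (hsG y hy)).2
          have h4 : idx y = idx x0 := le_antisymm (hex x0 hx0 y hy) (hex y hy x0 hx0)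
          rw [h4] at h3
          exact (S.hi_mono h2).trans h3

/-- the induction step -/
theorem step (S : Sp F N ch h lo hi) {k c f0 : ℕ} (hk : 1 ≤ k) (hf0 : 1 ≤ f0)
    (hsub : ∀ Z : Finset P, IsChain (· ≤ ·) (Z : Set P) → Z.card = k → (∀ x ∈ Z, x ∈ F) →
      ∀ G : Set P, G ⊆ F → (∀ x ∈ G, ∀ z ∈ Z, ¬ x ≤ z ∧ ¬ z ≤ x) → Mt ∅ G c f0) :
    Mt ∅ F (6 * c + 1) (6 * f0 + 8 * k + 1) := by
  classical
  -- runs of the chain
  have hrun : ∀ p, 1 ≤ p → ∀ G : Set P, G ⊆ F → (∀ x ∈ G, lo x < p ∧ p + k ≤ hi x) →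
      Mt ∅ G c f0 := by
    intro p hp G hG hx
    rcases G.eq_empty_or_nonempty with h0 | ⟨x0, hx0⟩
    · rw [h0]
      refine Mt.short (fun s _ hs => ?_) c
      rcases s.eq_empty_or_nonempty with h1 | ⟨y, hy⟩
      · rw [h1, Finset.card_empty]
        exact Nat.zero_le _
      · exact absurd (hs y hy) (Set.notMem_empty y)
    · have hpN : p + k ≤ N + 1 := (hx x0 hx0).2.trans (S.hi_le x0)
      have hinj : Set.InjOn ch ((Finset.Ico p (p + k) : Finset ℕ) : Set ℕ) := by
        intro i hi' j hj hij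
        rw [Finset.mem_coe, Finset.mem_Ico] at hi' hj
        by_contra hne
        rcases lt_or_gt_of_ne hne with h1 | h1
        · exact absurd hij (S.chlt i j (by omega) h1 (by omega)).ne
        · exact absurd hij.symm (S.chlt j i (by omega) h1 (by omega)).ne
      refine hsub ((Finset.Ico p (p + k)).image ch) ?_ ?_ ?_ G hG ?_
      · intro u hu v hv hne
        obtain ⟨i, hi', rfl⟩ := Finset.mem_image.1 (Finset.mem_coe.1 hu)
        obtain ⟨j, hj, rfl⟩ := Finset.mem_image.1 (Finset.mem_coe.1 hv)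
        rw [Finset.mem_Ico] at hi' hj
        rcases lt_trichotomy i j with h1 | h1 | h1
        · exact Or.inl (S.chlt i j (by omega) h1 (by omega)).le
        · exact absurd (by rw [h1]) hne
        · exact Or.inr (S.chlt j i (by omega) h1 (by omega)).le
      · rw [Finset.card_image_of_injOn hinj, Nat.card_Ico]
        omega
      · intro u hu
        obtain ⟨i, hi', rfl⟩ := Finset.mem_image.1 hu
        rw [Finset.mem_Ico] at hi'
        exact S.chF i (by omega) (by omega)
      · intro x hxG z hz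
        obtain ⟨i, hi', rfl⟩ := Finset.mem_image.1 hz
        rw [Finset.mem_Ico] at hi'
        obtain ⟨h1, h2⟩ := hx x hxG
        constructor
        · intro h3
          have := (S.hi_iff x i (by omega) (by omega)).1 h3
          omega
        · intro h3
          have := (S.lo_iff x i (by omega) (by omega)).1 h3
          omega
  let Seg : ℕ → ℕ → Set P := fun a b => {x | x ∈ F ∧ a ≤ lo x ∧ hi x ≤ b}
  have hSegF : ∀ a b, Seg a b ⊆ F := fun a b x hx => hx.1
  -- one more position
  have hsegs : ∀ a b, 1 ≤ b → Mt ∅ (Seg a (b - 1)) c f0 →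
      Mt ∅ (Seg a b) (2 * c) (2 * f0 + k + 1) := by
    intro a b hb hM
    have h1 : Mt (∅ : Set P) {x | x ∈ F ∧ hi x = b ∧ b ≤ lo x + k} 0 (k + 1) := by
      refine Mt.short (fun s hs hsG => ?_) 0
      have := S.seg_short (a := b - k) (b := b) hs (fun x hx => (hsG x hx).1) (fun x hx => by
        obtain ⟨_, h2, h3⟩ := hsG x hx
        constructor
        · omega
        · omega)
      omega
    have h2 : Mt ∅ {x | x ∈ F ∧ hi x = b ∧ lo x + k < b} c f0 := by
      rcases Nat.lt_or_ge k b with h3 | h3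
      · refine hrun (b - k) (by omega) _ (fun x hx => hx.1) ?_
        rintro x ⟨_, h4, h5⟩
        constructor
        · omega
        · omega
      · refine Mt.short (fun s _ hs => ?_) c
        rcases s.eq_empty_or_nonempty with h4 | ⟨y, hy⟩
        · rw [h4, Finset.card_empty]
          exact Nat.zero_le _
        · obtain ⟨_, h4, h5⟩ := hs y hy
          omega
    refine ((hM.union h1).union h2).mono ?_ (by omega) (by omega)
    rintro x ⟨hxF, hx1, hx2⟩
    by_cases h3 : hi x = b
    · by_cases h4 : b ≤ lo x + k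
      · exact Or.inl (Or.inr ⟨hxF, h3, h4⟩)
      · exact Or.inr ⟨hxF, h3, by omega⟩
    · exact Or.inl (Or.inl ⟨hxF, hx1, by omega⟩)
  -- thresholds
  obtain ⟨n, t, ht0, htlt, hbig, hsm, hlast⟩ := thresholds
    (fun a b => b ≤ N → Mt ∅ (Seg a b) c f0) N (by
      intro a b hab _
      refine Mt.short (fun s hs hsG => ?_) c
      have := S.seg_short (a := a) (b := b) hs (fun x hx => (hsG x hx).1)
        (fun x hx => (hsG x hx).2)
      omega) (by
      intro a b hab hb
      refine Mt.short (fun s hs hsG => ?_) c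
      have := S.seg_short (a := a) (b := b) hs (fun x hx => (hsG x hx).1)
        (fun x hx => (hsG x hx).2)
      omega)
  have hbig1 : ∀ j < n, t (j + 1) ≤ N ∧ ¬ Mt ∅ (Seg (t j) (t (j + 1))) c f0 := by
    intro j hj
    have := hbig j hj
    push Not at this
    exact this
  let T : ℕ → ℕ := fun j => if j ≤ n then t j else N + 1
  have hTn : ∀ j ≤ n, T j = t j := fun j hj => if_pos hj
  have hTN : ∀ j, n < j → T j = N + 1 := fun j hj => if_neg (by omega)
  have htN : ∀ j ≤ n, t j ≤ N := by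
    intro j hj
    rcases Nat.eq_zero_or_pos j with h0 | h0
    · rw [h0, ht0]
      exact Nat.zero_le _
    · have := (hbig1 (j - 1) (by omega)).1
      rwa [Nat.sub_add_cancel h0] at this
  have hTstep : ∀ j, T j ≤ T (j + 1) := by
    intro j
    rcases Nat.lt_trichotomy j n with h1 | h1 | h1
    · rw [hTn j h1.le, hTn (j + 1) (by omega)]
      exact (htlt j h1).le
    · rw [hTn j h1.le, hTN (j + 1) (by omega)]
      have := htN j h1.le
      omega
    · rw [hTN j h1, hTN (j + 1) (by omega)]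
  have hTm : Monotone T := monotone_nat_of_le_succ hTstep
  have hT0 : T 0 = 0 := by rw [hTn 0 (Nat.zero_le _), ht0]
  have hslot : ∀ j, Mt ∅ (Seg (T j) (T (j + 1))) (2 * c) (2 * f0 + k + 1) := by
    intro j
    rcases Nat.lt_trichotomy j n with h1 | h1 | h1
    · rw [hTn j h1.le, hTn (j + 1) (by omega)]
      have h2 := htlt j h1
      have h3 := (hbig1 j h1).1
      exact hsegs _ _ (by omega) (hsm j h1 (by omega))
    · rw [hTn j h1.le, hTN (j + 1) (by omega)]
      refine hsegs _ _ (by omega) ?_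
      rw [h1, Nat.add_sub_cancel]
      exact hlast N le_rfl
    · refine Mt.short (fun s _ hs => ?_) (2 * c)
      rcases s.eq_empty_or_nonempty with h4 | ⟨y, hy⟩
      · rw [h4, Finset.card_empty]
        exact Nat.zero_le _
      · obtain ⟨_, h4, h5⟩ := hs y hy
        rw [hTN j h1] at h4
        have := S.lo_le y
        omega
  -- the indices of an element
  let j1 : P → ℕ := fun x => Nat.findGreatest (fun j => T j ≤ lo x) n
  have hj1n : ∀ x, j1 x ≤ n := fun x => Nat.findGreatest_le n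
  have hj1a : ∀ x, T (j1 x) ≤ lo x := by
    intro x
    exact Nat.findGreatest_spec (P := fun j => T j ≤ lo x) (Nat.zero_le n)
      (by show T 0 ≤ lo x; rw [hT0]; exact Nat.zero_le _)
  have hj1b : ∀ x j, j1 x < j → lo x < T j := by
    intro x j hj
    rcases Nat.lt_or_ge n j with h1 | h1
    · rw [hTN j h1]
      have := S.lo_le x
      omega
    · exact not_le.1 (Nat.findGreatest_is_greatest (P := fun j => T j ≤ lo x) hj h1)
  have hexj2 : ∀ x, ∃ j, hi x ≤ T j := fun x => ⟨n + 1, by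
    rw [hTN (n + 1) (by omega)]
    exact S.hi_le x⟩
  let j2 : P → ℕ := fun x => Nat.find (hexj2 x)
  have hj2a : ∀ x, hi x ≤ T (j2 x) := fun x => Nat.find_spec (hexj2 x)
  have hj2b : ∀ x j, j < j2 x → T j < hi x := by
    intro x j hj
    exact not_le.1 (Nat.find_min (hexj2 x) hj)
  have hj2n : ∀ x, j2 x ≤ n + 1 := fun x => Nat.find_min' (hexj2 x) (by
    rw [hTN (n + 1) (by omega)]
    exact S.hi_le x)
  have hj1m : ∀ x y, x ≤ y → j1 x ≤ j1 y := by
    intro x y hxy
    by_contra hcon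
    have h1 := hj1b y (j1 x) (by omega)
    have h2 := hj1a x
    have h3 := S.lo_mono hxy
    omega
  have hj2m : ∀ x y, x ≤ y → j2 x ≤ j2 y := by
    intro x y hxy
    by_contra hcon
    have h1 := hj2b x (j2 y) (by omega)
    have h2 := hj2a y
    have h3 := S.hi_mono hxy
    omega
  -- elements in a slot
  have htype1 : Mt (X N ch) {x | x ∈ F ∧ j2 x ≤ j1 x + 1} (2 * c) (2 * f0 + k + 1) := by
    refine S.family j1 T (fun j => T (j + 1)) ?_ ?_ ?_
    · rintro x ⟨_, hx⟩
      exact ⟨hj1a x, (hj2a x).trans (hTm hx)⟩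
    · rintro x _ y _ hxy
      exact hTm hxy
    · intro j
      refine (hslot j).mono ?_ le_rfl le_rfl
      rintro x ⟨⟨hxF, hx⟩, rfl⟩
      exact ⟨hxF, hj1a x, (hj2a x).trans (hTm hx)⟩
  -- elements which stab one threshold
  have htype2 : ∀ p, Mt (X N ch) {x | x ∈ F ∧ j2 x = j1 x + 2 ∧ j1 x % 2 = p} (2 * c)
      (2 * f0 + 2 * k) := by
    intro p
    refine S.family j1 T (fun j => T (j + 2)) ?_ ?_ ?_
    · rintro x ⟨_, hx, _⟩
      refine ⟨hj1a x, ?_⟩
      have := hj2a x
      rw [hx] at this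
      exact this
    · rintro x ⟨_, _, hx⟩ y ⟨_, _, hy⟩ hxy
      exact hTm (by omega)
    · intro j
      have h1 : Mt ∅ {x | x ∈ F ∧ lo x < T (j + 1) ∧ T (j + 1) + k ≤ hi x} c f0 := by
        rcases Nat.eq_zero_or_pos (T (j + 1)) with h0 | h0
        · refine Mt.short (fun s _ hs => ?_) c
          rcases s.eq_empty_or_nonempty with h4 | ⟨y, hy⟩
          · rw [h4, Finset.card_empty]
            exact Nat.zero_le _
          · obtain ⟨_, h4, h5⟩ := hs y hy
            omega
        · exact hrun (T (j + 1)) h0 _ (fun x hx => hx.1) (fun x hx => hx.2)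
      have h2 : Mt ∅ {x | x ∈ F ∧ lo x + k ≤ T (j + 1) ∧ T (j + 1) < hi x} c f0 := by
        rcases Nat.lt_or_ge (T (j + 1)) k with h0 | h0
        · refine Mt.short (fun s _ hs => ?_) c
          rcases s.eq_empty_or_nonempty with h4 | ⟨y, hy⟩
          · rw [h4, Finset.card_empty]
            exact Nat.zero_le _
          · obtain ⟨_, h4, h5⟩ := hs y hy
            omega
        · refine hrun (T (j + 1) + 1 - k) (by omega) _ (fun x hx => hx.1) ?_
          rintro x ⟨_, h4, h5⟩
          constructor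
          · omega
          · omega
      have h3 : Mt (∅ : Set P) {x | x ∈ F ∧ hi x < T (j + 1) + k ∧ T (j + 1) < lo x + k} 0
          (2 * k) := by
        refine Mt.short (fun s hs hsG => ?_) 0
        have := S.seg_short (a := T (j + 1) + 1 - k) (b := T (j + 1) + k - 1) hs
          (fun x hx => (hsG x hx).1) (fun x hx => by
            obtain ⟨_, h4, h5⟩ := hsG x hx
            constructor
            · omega
            · omega)
        omega
      refine ((h1.union h2).union h3).mono ?_ (by omega) (by omega)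
      rintro x ⟨⟨hxF, hx2, _⟩, rfl⟩
      have h4 := hj1b x (j1 x + 1) (by omega)
      have h5 := hj2b x (j1 x + 1) (by omega)
      by_cases h6 : T (j1 x + 1) + k ≤ hi x
      · exact Or.inl (Or.inl ⟨hxF, h4, h6⟩)
      · by_cases h7 : lo x + k ≤ T (j1 x + 1)
        · exact Or.inl (Or.inr ⟨hxF, h7, h5⟩)
        · exact Or.inr ⟨hxF, by omega, by omega⟩
  -- elements which cover a slot
  have htype3 : Mt (X N ch) {x | x ∈ F ∧ j1 x + 3 ≤ j2 x} 0 (3 * k) := by
    refine ⟨fun _ => ∅, fun _ => Set.pairwise_empty _, fun s hs hsG hc => Or.inl ?_⟩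
    by_contra hnot
    have hne : s.Nonempty := by
      rw [← Finset.card_pos]
      omega
    obtain ⟨x0, hx0, hmin⟩ := Finset.exists_minimal hne
    have hle : ∀ y ∈ s, x0 ≤ y := by
      intro y hy
      rcases hs.total hx0 hy with h1 | h1
      · exact h1
      · exact hmin hy h1
    have hx0' := (hsG x0 hx0).2
    have hj : ∀ y ∈ s, j1 y < j2 x0 := by
      intro y hy
      by_contra hcon
      apply hnot
      have h1 := hj2a x0
      have h2 := hj1a y
      have h3 : T (j2 x0) ≤ T (j1 y) := hTm (by omega)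
      obtain ⟨v, hv, hv1, hv2⟩ := S.between (x := x0) (y := y) (by omega)
      exact ⟨v, hv, x0, hx0, y, hy, hv1, hv2⟩
    -- few elements cover a given slot
    have hfew : ∀ q, (s.filter (fun y => j1 y < q ∧ q + 2 ≤ j2 y)).card ≤ k - 1 := by
      intro q
      by_contra hcon
      obtain ⟨Z, hZs, hZk⟩ := Finset.exists_subset_card_eq
        (s := s.filter (fun y => j1 y < q ∧ q + 2 ≤ j2 y)) (n := k) (by omega)
      have hZ1 : ∀ z ∈ Z, z ∈ s ∧ j1 z < q ∧ q + 2 ≤ j2 z := by
        intro z hz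
        exact Finset.mem_filter.1 (hZs hz)
      have hZne : Z.Nonempty := by
        rw [← Finset.card_pos]
        omega
      obtain ⟨z0, hz0⟩ := hZne
      have hqn : q < n := by
        have h1 := hj2n z0
        have h2 := (hZ1 z0 hz0).2.2
        omega
      apply (hbig1 q hqn).2
      refine hsub Z (hs.mono (fun z hz => (hZ1 z hz).1)) hZk (fun z hz => (hsG z (hZ1 z hz).1).1)
        _ (hSegF _ _) ?_
      rintro x ⟨hxF, hx1, hx2⟩ z hz
      obtain ⟨hzs, hz1, hz2⟩ := hZ1 z hz
      have h1 := hj1b z q hz1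
      have h2 := hj2b z (q + 1) (by omega)
      rw [hTn q hqn.le] at h1
      rw [hTn (q + 1) (by omega)] at h2
      constructor
      · intro h3
        have := S.lo_mono h3
        omega
      · intro h3
        have := S.hi_mono h3
        omega
    have hcov : s ⊆ (Finset.range 3).biUnion
        (fun d => s.filter (fun y => j1 y < j2 x0 - 2 + d ∧ j2 x0 - 2 + d + 2 ≤ j2 y)) := by
      intro y hy
      have h1 := hj y hy
      have h2 := hj2m x0 y (hle y hy)
      have h3 := (hsG y hy).2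
      rw [Finset.mem_biUnion]
      rcases Nat.lt_or_ge (j1 y) (j2 x0 - 2) with h4 | h4
      · exact ⟨0, by simp, Finset.mem_filter.2 ⟨hy, by omega, by omega⟩⟩
      · rcases Nat.lt_or_ge (j1 y) (j2 x0 - 1) with h5 | h5
        · exact ⟨1, by simp, Finset.mem_filter.2 ⟨hy, by omega, by omega⟩⟩
        · exact ⟨2, by simp, Finset.mem_filter.2 ⟨hy, by omega, by omega⟩⟩
    have h1 := (Finset.card_le_card hcov).trans
      (Finset.card_biUnion_le_card_mul _ _ (k - 1) (fun d _ => hfew _))
    rw [Finset.card_range] at h1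
    omega
  -- all together
  have hall : Mt (X N ch) F (6 * c) (6 * f0 + 8 * k + 1) := by
    refine (((htype1.union (htype2 0)).union (htype2 1)).union htype3).mono ?_ (by omega)
      (by omega)
    intro x hx
    rcases Nat.lt_or_ge (j1 x + 1) (j2 x) with h1 | h1
    · rcases Nat.lt_or_ge (j1 x + 2) (j2 x) with h2 | h2
      · exact Or.inr ⟨hx, by omega⟩
      · rcases Nat.mod_two_eq_zero_or_one (j1 x) with h3 | h3
        · exact Or.inl (Or.inl (Or.inr ⟨hx, by omega, h3⟩))
        · exact Or.inl (Or.inr ⟨hx, by omega, h3⟩)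
    · exact Or.inl (Or.inl (Or.inl ⟨hx, h1⟩))
  obtain ⟨D, hD1, hD2⟩ := hall
  refine ⟨fun i => if i < 6 * c then D i else X N ch, fun i => ?_, fun s hs hsF hc => ?_⟩
  · show IsChain (· ≤ ·) (if i < 6 * c then D i else X N ch)
    split_ifs
    · exact hD1 i
    · exact S.isChain_X
  · right
    rcases hD2 s hs hsF hc with h1 | ⟨i, hi', h1⟩
    · refine ⟨6 * c, by omega, ?_⟩
      show Met (if 6 * c < 6 * c then D (6 * c) else X N ch) s
      rw [if_neg (lt_irrefl _)]
      exact h1
    · refine ⟨i, by omega, ?_⟩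
      show Met (if i < 6 * c then D i else X N ch) s
      rw [if_pos hi']
      exact h1

end Sp

/-- no `r` pairwise incomparable `k`-chains in `F` -/
def NoInc (r k : ℕ) (F : Set P) : Prop :=
  ¬ ∃ Z : Fin r → Finset P, (∀ i, IsChain (· ≤ ·) (Z i : Set P)) ∧ (∀ i, (Z i).card = k) ∧
    (∀ i, ∀ x ∈ Z i, x ∈ F) ∧ ∀ i j, i ≠ j → ∀ x ∈ Z i, ∀ y ∈ Z j, ¬ x ≤ y

theorem coarseAux (k r : ℕ) : ∃ M f : ℕ, ∀ (P : Type) [Fintype P] [PartialOrder P] (F : Set P),
    NoInc r k F → Mt ∅ F M f := by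
  classical
  induction r with
  | zero =>
    refine ⟨0, 0, ?_⟩
    intro P _ _ F hF
    exact absurd ⟨fun i => i.elim0, fun i => i.elim0, fun i => i.elim0, fun i => i.elim0,
      fun i => i.elim0⟩ hF
  | succ r ih =>
    obtain ⟨c, f0, hc⟩ := ih
    refine ⟨6 * c + 1, 6 * (f0 + 1) + 8 * k + 1, ?_⟩
    intro P _ _ F hF
    rcases Nat.eq_zero_or_pos k with hk | hk
    · subst hk
      exfalso
      refine hF ⟨fun _ => ∅, fun i => ?_, fun i => Finset.card_empty,
        fun i x hx => absurd hx (Finset.notMem_empty x),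
        fun i j _ x hx => absurd hx (Finset.notMem_empty x)⟩
      rw [Finset.coe_empty]
      exact Set.pairwise_empty _
    rcases isEmpty_or_nonempty P with hP | hP
    · refine Mt.short (fun s _ _ => ?_) _
      rcases s.eq_empty_or_nonempty with h4 | ⟨y, hy⟩
      · rw [h4, Finset.card_empty]
        exact Nat.zero_le _
      · exact isEmptyElim y
    obtain ⟨N, ch, h, lo, hi, S⟩ := exists_sp F
    refine S.step hk (Nat.succ_le_succ (Nat.zero_le f0)) ?_
    intro Z hZ hZk hZF G hG hinc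
    refine (hc P G ?_).mono (fun x hx => hx) le_rfl (Nat.le_succ f0)
    rintro ⟨Y, hY1, hY2, hY3, hY4⟩
    refine hF ⟨Fin.cons Z Y, ?_, ?_, ?_, ?_⟩
    · intro i
      refine Fin.cases ?_ (fun i => ?_) i
      · exact hZ
      · exact hY1 i
    · intro i
      refine Fin.cases ?_ (fun i => ?_) i
      · exact hZk
      · exact hY2 i
    · intro i
      refine Fin.cases ?_ (fun i => ?_) i
      · exact hZF
      · exact fun x hx => hG (hY3 i x hx)
    · intro i j
      refine Fin.cases ?_ (fun i => ?_) i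
      · refine Fin.cases ?_ (fun j => ?_) j
        · intro h0
          exact absurd rfl h0
        · intro _ x hx y hy
          exact (hinc y (hY3 j y hy) x hx).2
      · refine Fin.cases ?_ (fun j => ?_) j
        · intro _ x hx y hy
          exact (hinc x (hY3 i x hx) y hy).1
        · intro hij x hx y hy
          exact hY4 i j (fun h0 => hij (by rw [h0])) x hx y hy

/-- THEOREM A (coarse Dilworth theorem) -/
theorem coarse (r k : ℕ) : ∃ M f : ℕ, ∀ (P : Type) [Fintype P] [PartialOrder P],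
    (¬ ∃ z : Fin r → Fin k → P, (∀ i, StrictMono (z i)) ∧
      ∀ i j, i ≠ j → ∀ a b, ¬ z i a ≤ z j b) →
    ∃ C : Fin M → Set P, (∀ i, IsChain (· ≤ ·) (C i)) ∧
      ∀ z : Fin (f + 1) → P, StrictMono z → ∃ i, ∃ w ∈ C i, z 0 ≤ w ∧ w ≤ z (Fin.last f) := by
  classical
  obtain ⟨M, f, hMf⟩ := coarseAux k r
  refine ⟨M, f, ?_⟩
  intro P _ _ hno
  obtain ⟨D, hD1, hD2⟩ := hMf P Set.univ (by
    rintro ⟨Z, hZ1, hZ2, hZ3, hZ4⟩
    apply hno
    have h1 : ∀ i, ∃ z : Fin k → P, StrictMono z ∧ ∀ a, z a ∈ Z i := by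
      intro i
      obtain ⟨z, hz1, hz2⟩ := enum (hZ1 i)
      have h2 := hZ2 i
      refine ⟨fun a => z (Fin.cast h2.symm a), fun a b hab => hz1 (by
        rw [Fin.lt_def] at hab ⊢
        exact hab), fun a => hz2 _⟩
    choose z hz1 hz2 using h1
    exact ⟨z, hz1, fun i j hij a b => hZ4 i j hij _ (hz2 i a) _ (hz2 j b)⟩)
  refine ⟨fun i => D i, fun i => hD1 i, ?_⟩
  intro z hz
  have h1 : (Finset.univ.image z).card = f + 1 := by
    rw [Finset.card_image_of_injective _ hz.injective, Finset.card_univ, Fintype.card_fin]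
  rcases hD2 (Finset.univ.image z) (by
    intro u hu v hv _
    obtain ⟨a, _, rfl⟩ := Finset.mem_image.1 (Finset.mem_coe.1 hu)
    obtain ⟨b, _, rfl⟩ := Finset.mem_image.1 (Finset.mem_coe.1 hv)
    rcases le_total a b with h2 | h2
    · exact Or.inl (hz.monotone h2)
    · exact Or.inr (hz.monotone h2)) (fun x _ => Set.mem_univ x) (by omega) with
      ⟨w, hw, _⟩ | ⟨i, hi, w, hw, x, hx, y, hy, h2, h3⟩
  · exact absurd hw (Set.notMem_empty w)
  · obtain ⟨a, _, rfl⟩ := Finset.mem_image.1 hx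
    obtain ⟨b, _, rfl⟩ := Finset.mem_image.1 hy
    exact ⟨⟨i, hi⟩, w, hw, (hz.monotone (Fin.zero_le a)).trans h2,
      h3.trans (hz.monotone (Fin.le_last b))⟩

end Pool.Agent.MP763071.M
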