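import Mathlib

/-!
# MP_763071_co : few acyclic classes

`Col A F n` : the set `F` is a union of `n` sets on each of which the relation `A` is acyclic
(`E` is finite; acyclicity is expressed by a rank function).
-/

set_option autoImplicit false

namespace Pool.Agent.MP763071.M

variable {E : Type}

/-- `F` is a union of `n` sets on each of which `A` is acyclic -/
def Col (A : E → E → Prop) (F : Set E) (n : ℕ) : Prop :=
  ∃ col rk : E → ℕ, (∀ e ∈ F, col e < n) ∧
    ∀ e ∈ F, ∀ f ∈ F, A e f → col e = col f → rk e < rk f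

theorem Col.mono {A : E → E → Prop} {F G : Set E} {n k : ℕ} (h : Col A F n) (hGF : G ⊆ F)
    (hnk : n ≤ k) : Col A G k := by
  obtain ⟨col, rk, h1, h2⟩ := h
  exact ⟨col, rk, fun e he => (h1 e (hGF he)).trans_le hnk,
    fun e he f hf => h2 e (hGF he) f (hGF hf)⟩

theorem Col.congr {A A' : E → E → Prop} {F : Set E} {n : ℕ} (h : Col A F n)
    (hA : ∀ e ∈ F, ∀ f ∈ F, A' e f → A e f) : Col A' F n := by
  obtain ⟨col, rk, h1, h2⟩ := h
  exact ⟨col, rk, h1, fun e he f hf hef => h2 e he f hf (hA e he f hf hef)⟩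

theorem Col.empty (A : E → E → Prop) (n : ℕ) : Col A ∅ n :=
  ⟨fun _ => 0, fun _ => 0, fun e he => absurd he (Set.notMem_empty e),
    fun e he => absurd he (Set.notMem_empty e)⟩

theorem Col.union {A : E → E → Prop} {F G : Set E} {n k : ℕ} (hF : Col A F n) (hG : Col A G k) :
    Col A (F ∪ G) (n + k) := by
  classical
  obtain ⟨c1, r1, h1, h2⟩ := hF
  obtain ⟨c2, r2, h3, h4⟩ := hG
  refine ⟨fun e => if e ∈ F then c1 e else n + c2 e, fun e => if e ∈ F then r1 e else r2 e,
    ?_, ?_⟩
  · intro e he
    show (if e ∈ F then c1 e else n + c2 e) < n + k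
    by_cases h : e ∈ F
    · rw [if_pos h]
      have := h1 e h
      omega
    · rw [if_neg h]
      have := h3 e (he.resolve_left h)
      omega
  · intro e he f hf hef
    show (if e ∈ F then c1 e else n + c2 e) = (if f ∈ F then c1 f else n + c2 f) →
      (if e ∈ F then r1 e else r2 e) < (if f ∈ F then r1 f else r2 f)
    by_cases h : e ∈ F <;> by_cases h' : f ∈ F
    · rw [if_pos h, if_pos h', if_pos h, if_pos h']
      exact h2 e h f h' hef
    · rw [if_pos h, if_neg h', if_pos h, if_neg h']
      intro heq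
      have := h1 e h
      omega
    · rw [if_neg h, if_pos h', if_neg h, if_pos h']
      intro heq
      have := h1 f h'
      omega
    · rw [if_neg h, if_neg h', if_neg h, if_neg h']
      intro heq
      exact h4 e (he.resolve_left h) f (hf.resolve_left h') hef (by omega)

theorem Col.biUnion {ι : Type} {A : E → E → Prop} (I : Finset ι) {F : ι → Set E} {k : ℕ}
    (h : ∀ i ∈ I, Col A (F i) k) : Col A {e | ∃ i ∈ I, e ∈ F i} (I.card * k) := by
  classical
  induction I using Finset.induction_on with
  | empty => exact (Col.empty A _).mono (by rintro e ⟨i, hi, _⟩; exact absurd hi (Finset.notMem_empty i)) le_rfl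
  | insert a s ha ih =>
    have h1 := (ih fun i hi => h i (Finset.mem_insert_of_mem hi)).union
      (h a (Finset.mem_insert_self a s))
    refine h1.mono ?_ ?_
    · rintro e ⟨i, hi, he⟩
      rcases Finset.mem_insert.1 hi with rfl | hi
      · exact Or.inr he
      · exact Or.inl ⟨i, hi, he⟩
    · rw [Finset.card_insert_of_notMem ha]
      nlinarith

theorem Col.layers [Fintype E] {A : E → E → Prop} {F : Set E} {n : ℕ} (idx : E → ℕ)
    (hidx : ∀ e ∈ F, ∀ f ∈ F, A e f → idx e ≤ idx f)
    (h : ∀ j, Col A {e | e ∈ F ∧ idx e = j} n) : Col A F n := by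
  classical
  choose col rk h1 h2 using h
  obtain ⟨K, hK⟩ : ∃ K : ℕ, ∀ e, rk (idx e) e < K :=
    ⟨Finset.univ.sup (fun e => rk (idx e) e) + 1, fun e =>
      Nat.lt_succ_of_le (Finset.le_sup (f := fun e => rk (idx e) e) (Finset.mem_univ e))⟩
  refine ⟨fun e => col (idx e) e, fun e => idx e * K + rk (idx e) e,
    fun e he => h1 _ e ⟨he, rfl⟩, ?_⟩
  intro e he f hf hef hc
  show idx e * K + rk (idx e) e < idx f * K + rk (idx f) f
  rcases (hidx e he f hf hef).eq_or_lt with h | h
  · have hc' : col (idx e) e = col (idx f) f := hc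
    have := h2 (idx e) e ⟨he, rfl⟩ f ⟨hf, h.symm⟩ hef (by rw [hc', h])
    rw [← h]
    omega
  · have h3 := hK e
    have h4 : (idx e + 1) * K ≤ idx f * K := Nat.mul_le_mul_right K h
    have h5 : (idx e + 1) * K = idx e * K + K := by ring
    omega

/-- two layers -/
theorem Col.two [Fintype E] {A : E → E → Prop} {F G : Set E} {n : ℕ}
    (hFG : ∀ e ∈ G, ∀ f ∈ F, ¬ A e f) (hF : Col A F n) (hG : Col A G n) : Col A (F ∪ G) n := by
  classical
  refine Col.layers (fun e => if e ∈ F then 0 else 1) ?_ ?_
  · intro e he f hf hef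
    show (if e ∈ F then 0 else 1) ≤ (if f ∈ F then 0 else 1)
    by_cases h : e ∈ F
    · rw [if_pos h]
      exact Nat.zero_le _
    · by_cases h' : f ∈ F
      · exact absurd hef (hFG e (he.resolve_left h) f h')
      · rw [if_neg h, if_neg h']
  · intro j
    rcases Nat.eq_zero_or_pos j with hj | hj
    · refine hF.mono ?_ le_rfl
      rintro e ⟨he, hj'⟩
      by_contra h
      have hj2 : (if e ∈ F then 0 else 1) = j := hj'
      rw [if_neg h] at hj2
      omega
    · refine hG.mono ?_ le_rfl
      rintro e ⟨he, hj'⟩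
      have hj2 : (if e ∈ F then 0 else 1) = j := hj'
      by_cases h : e ∈ F
      · rw [if_pos h] at hj2
        omega
      · exact he.resolve_left h

end Pool.Agent.MP763071.M
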