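import Pool.Agent.Lib.MP_763071_co.M.Col

/-!
# MP_763071_co : unions of interval orders without 2-cycles have bounded dichromatic number
-/

set_option autoImplicit false

namespace Pool.Agent.MP763071.M

/-- an arc: `e` is to the left of `f` on some line of `I` -/
def Arc {ι E : Type} (I : Finset ι) (l r : ι → E → ℕ) (e f : E) : Prop :=
  ∃ i ∈ I, r i e < l i f

/-- context of the induction step -/
structure Ctx (ι E : Type) (l r : ι → E → ℕ) (I : Finset ι) (F : Set E) (c : ℕ) : Prop where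
  le : ∀ i e, l i e ≤ r i e
  no2 : ∀ e ∈ F, ∀ f ∈ F, Arc I l r e f → ¬ Arc I l r f e
  sub : ∀ i ∈ I, ∀ G : Set E, G ⊆ F → (∀ e ∈ G, ∀ f ∈ G, ¬ r i e < l i f) →
    Col (Arc I l r) G c

namespace Ctx

variable {ι E : Type} {l r : ι → E → ℕ} {I : Finset ι} {F : Set E} {c : ℕ}

theorem stab (C : Ctx ι E l r I F c) {i : ι} (hi : i ∈ I) {G : Set E} (hG : G ⊆ F) (t : ℕ)
    (h : ∀ e ∈ G, l i e < t ∧ t ≤ r i e) : Col (Arc I l r) G c :=
  C.sub i hi G hG (fun e he f hf hlt => by
    have h1 := (h e he).2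
    have h2 := (h f hf).1
    omega)

theorem atL (C : Ctx ι E l r I F c) {i : ι} (hi : i ∈ I) {G : Set E} (hG : G ⊆ F) (t : ℕ)
    (h : ∀ e ∈ G, l i e = t) : Col (Arc I l r) G c :=
  C.sub i hi G hG (fun e he f hf hlt => by
    have h1 := h e he
    have h2 := h f hf
    have h3 := C.le i e
    omega)

theorem atR (C : Ctx ι E l r I F c) {i : ι} (hi : i ∈ I) {G : Set E} (hG : G ⊆ F) (t : ℕ)
    (h : ∀ e ∈ G, r i e = t) : Col (Arc I l r) G c :=
  C.sub i hi G hG (fun e he f hf hlt => by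
    have h1 := h e he
    have h2 := h f hf
    have h3 := C.le i f
    omega)

theorem cut [Fintype E] (C : Ctx ι E l r I F c) {i : ι} (hi : i ∈ I) {G : Set E} (hG : G ⊆ F)
    (t a : ℕ) (h1 : Col (Arc I l r) {e | e ∈ G ∧ r i e < t} a)
    (h2 : Col (Arc I l r) {e | e ∈ G ∧ t ≤ l i e} a) : Col (Arc I l r) G (a + c) := by
  have h3 := Col.two (A := Arc I l r) (F := {e | e ∈ G ∧ r i e < t})
    (G := {e | e ∈ G ∧ t ≤ l i e}) (n := a) (by
      rintro e ⟨he, he'⟩ f ⟨hf, hf'⟩ hef
      exact C.no2 e (hG he) f (hG hf) hef ⟨i, hi, lt_of_lt_of_le hf' he'⟩) h1 h2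
  have h4 := C.stab hi (G := {e | e ∈ G ∧ l i e < t ∧ t ≤ r i e}) (fun e he => hG he.1) t
    (fun e he => he.2)
  refine (h3.union h4).mono ?_ le_rfl
  intro e he
  by_cases h5 : r i e < t
  · exact Or.inl (Or.inl ⟨he, h5⟩)
  · by_cases h6 : t ≤ l i e
    · exact Or.inl (Or.inr ⟨he, h6⟩)
    · exact Or.inr ⟨he, not_le.1 h6, not_lt.1 h5⟩

theorem between (C : Ctx ι E l r I F c) {x y : E} (hx : x ∈ F) (hy : y ∈ F)
    (hyx : Arc I l r y x) :
    Col (Arc I l r) {g | g ∈ F ∧ Arc I l r x g ∧ Arc I l r g y} c := by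
  obtain ⟨i, hi, hlt⟩ := hyx
  refine C.stab hi (fun g hg => hg.1) (r i y + 1) ?_
  rintro g ⟨hg, hxg, hgy⟩
  constructor
  · by_contra hcon
    exact C.no2 g hg y hy hgy ⟨i, hi, by omega⟩
  · by_contra hcon
    exact C.no2 x hx g hg hxg ⟨i, hi, by omega⟩

/-- slots on the line `i0` -/
theorem slots [Fintype E] (C : Ctx ι E l r I F c) {i0 : ι} (hi0 : i0 ∈ I) (B : ℕ) :
    ∃ (N : ℕ) (t : ℕ → ℕ), t 0 = 0 ∧ (∀ j < N, t j < t (j + 1)) ∧
      (∀ j < N, ¬ Col (Arc I l r) {e | e ∈ F ∧ t j ≤ l i0 e ∧ r i0 e < t (j + 1)} B) ∧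
      (∀ j < N, Col (Arc I l r) {e | e ∈ F ∧ t j ≤ l i0 e ∧ r i0 e < t (j + 1)} (B + c)) ∧
      Col (Arc I l r) {e | e ∈ F ∧ t N ≤ l i0 e} B := by
  classical
  let S : ℕ → ℕ → Set E := fun s t => {e | e ∈ F ∧ s ≤ l i0 e ∧ r i0 e < t}
  let nx : ℕ → ℕ := fun s =>
    if h : ∃ t, ¬ Col (Arc I l r) (S s t) B then Nat.find h else s
  let t : ℕ → ℕ := fun j => Nat.rec 0 (fun _ s => nx s) j
  have ht0 : t 0 = 0 := rfl
  have hts : ∀ j, t (j + 1) = nx (t j) := fun j => rfl
  have hnx : ∀ s (h : ∃ t, ¬ Col (Arc I l r) (S s t) B), nx s = Nat.find h := by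
    intro s h
    exact dif_pos h
  have hSlt : ∀ s u, ¬ Col (Arc I l r) (S s u) B → s < u := by
    intro s u h
    by_contra hcon
    apply h
    refine (Col.empty _ B).mono ?_ le_rfl
    rintro e ⟨_, h1, h2⟩
    have := C.le i0 e
    omega
  have hstep : ∀ j, (∃ u, ¬ Col (Arc I l r) (S (t j) u) B) → t j < t (j + 1) := by
    intro j h
    rw [hts, hnx _ h]
    exact hSlt _ _ (Nat.find_spec h)
  obtain ⟨K, hK⟩ : ∃ K : ℕ, ∀ e, r i0 e < K :=
    ⟨Finset.univ.sup (fun e => r i0 e) + 1, fun e =>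
      Nat.lt_succ_of_le (Finset.le_sup (f := fun e => r i0 e) (Finset.mem_univ e))⟩
  have hex : ∃ j, ∀ u, Col (Arc I l r) (S (t j) u) B := by
    by_contra hcon
    push Not at hcon
    have hge : ∀ j, j ≤ t j := by
      intro j
      induction j with
      | zero => exact Nat.zero_le _
      | succ j ih =>
        have := hstep j (hcon j)
        omega
    obtain ⟨u, hu⟩ := hcon K
    apply hu
    refine (Col.empty _ B).mono ?_ le_rfl
    rintro e ⟨_, h1, h2⟩
    have h3 := C.le i0 e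
    have h4 := hK e
    have h5 := hge K
    omega
  have hlt : ∀ j < Nat.find hex, ∃ u, ¬ Col (Arc I l r) (S (t j) u) B := by
    intro j hj
    have := Nat.find_min hex hj
    push Not at this
    exact this
  refine ⟨Nat.find hex, t, ht0, fun j hj => hstep j (hlt j hj), ?_, ?_, ?_⟩
  · intro j hj
    have h1 := Nat.find_spec (hlt j hj)
    rw [← hnx _ (hlt j hj), ← hts] at h1
    exact h1
  · intro j hj
    have h1 : t (j + 1) = Nat.find (hlt j hj) := by rw [hts, hnx _ (hlt j hj)]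
    have h2 : t j < t (j + 1) := hstep j (hlt j hj)
    have h3 : Col (Arc I l r) (S (t j) (t (j + 1) - 1)) B := by
      have := Nat.find_min (hlt j hj) (m := t (j + 1) - 1) (by omega)
      rw [not_not] at this
      exact this
    have h4 := C.atR hi0 (G := {e | e ∈ F ∧ r i0 e = t (j + 1) - 1}) (fun e he => he.1) _
      (fun e he => he.2)
    refine (h3.union h4).mono ?_ le_rfl
    rintro e ⟨he, h5, h6⟩
    by_cases h7 : r i0 e = t (j + 1) - 1
    · exact Or.inr ⟨he, h7⟩
    · exact Or.inl ⟨he, h5, by omega⟩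
  · refine (Nat.find_spec hex K).mono ?_ le_rfl
    rintro e ⟨he, h1⟩
    exact ⟨he, h1, hK e⟩

/-- medians -/
theorem medians [Fintype E] (C : Ctx ι E l r I F c) {G : Set E} (hG : G ⊆ F) {B : ℕ}
    (hB : (I.card + 2) * c ≤ B) (hbig : ¬ Col (Arc I l r) G B) :
    ∃ τ : ι → ℕ, (∃ a ∈ G, ∀ i ∈ I, r i a < τ i) ∧ (∃ b ∈ G, ∀ i ∈ I, τ i ≤ l i b) := by
  classical
  have hB' : I.card * c + 2 * c ≤ B := by
    have : (I.card + 2) * c = I.card * c + 2 * c := by ring
    omega
  have h1 : ∀ i, ∃ τ, i ∈ I → ¬ Col (Arc I l r) {e | e ∈ G ∧ r i e < τ} (I.card * c) ∧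
      ¬ Col (Arc I l r) {e | e ∈ G ∧ τ ≤ l i e} (I.card * c) := by
    intro i
    by_cases hi : i ∈ I
    swap
    · exact ⟨0, fun h => absurd h hi⟩
    obtain ⟨K, hK⟩ : ∃ K : ℕ, ∀ e, r i e < K :=
      ⟨Finset.univ.sup (fun e => r i e) + 1, fun e =>
        Nat.lt_succ_of_le (Finset.le_sup (f := fun e => r i e) (Finset.mem_univ e))⟩
    have hex : ∃ τ, ¬ Col (Arc I l r) {e | e ∈ G ∧ r i e < τ} (I.card * c) := by
      refine ⟨K, fun h => hbig (h.mono ?_ (by omega))⟩
      intro e he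
      exact ⟨he, hK e⟩
    have hs := Nat.find_spec hex
    have hpos : 0 < Nat.find hex := by
      rcases Nat.eq_zero_or_pos (Nat.find hex) with h0 | h0
      · exfalso
        rw [h0] at hs
        apply hs
        refine (Col.empty _ _).mono ?_ le_rfl
        rintro e ⟨_, h2⟩
        omega
      · exact h0
    have hm := Nat.find_min hex (m := Nat.find hex - 1) (by omega)
    rw [not_not] at hm
    refine ⟨Nat.find hex, fun _ => ⟨hs, fun h2 => hbig ?_⟩⟩
    have h3 := C.atL hi (G := {e | e ∈ G ∧ l i e = Nat.find hex - 1}) (fun e he => hG he.1) _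
      (fun e he => he.2)
    have h4 : Col (Arc I l r) {e | e ∈ G ∧ Nat.find hex - 1 ≤ l i e} (I.card * c + c) := by
      refine (h2.union h3).mono ?_ le_rfl
      rintro e ⟨he, h5⟩
      by_cases h6 : l i e = Nat.find hex - 1
      · exact Or.inr ⟨he, h6⟩
      · exact Or.inl ⟨he, by omega⟩
    have h5 := C.cut hi hG (Nat.find hex - 1) (I.card * c + c)
      (hm.mono (fun e he => he) (by omega)) h4
    exact h5.mono (fun e he => he) (by omega)
  choose τ hτ using h1
  have hM : Col (Arc I l r) {e | ∃ i ∈ I, e ∈ {e | e ∈ G ∧ l i e < τ i ∧ τ i ≤ r i e}}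
      (I.card * c) :=
    Col.biUnion I fun i hi => C.stab hi (fun e he => hG he.1) (τ i) (fun e he => he.2)
  let G' : Finset E := Finset.univ.filter
    (fun e => e ∈ G ∧ ∀ i ∈ I, ¬ (l i e < τ i ∧ τ i ≤ r i e))
  have hG' : ∀ e, e ∈ G' ↔ e ∈ G ∧ ∀ i ∈ I, ¬ (l i e < τ i ∧ τ i ≤ r i e) := by
    intro e
    simp only [G', Finset.mem_filter, Finset.mem_univ, true_and]
  have hsplit : ∀ e ∈ G, e ∉ G' → e ∈ {e | ∃ i ∈ I, e ∈ {e | e ∈ G ∧ l i e < τ i ∧ τ i ≤ r i e}} := by
    intro e he hne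
    rw [hG', not_and] at hne
    have := hne he
    push Not at this
    obtain ⟨i, hi, h2, h3⟩ := this
    exact ⟨i, hi, he, h2, h3⟩
  have hne : G'.Nonempty := by
    by_contra hcon
    rw [Finset.not_nonempty_iff_eq_empty] at hcon
    apply hbig
    refine hM.mono (fun e he => hsplit e he ?_) (by omega)
    rw [hcon]
    exact Finset.notMem_empty e
  let T : E → Finset ι := fun e => I.filter (fun i => τ i ≤ l i e)
  have hT : ∀ e i, i ∈ T e ↔ i ∈ I ∧ τ i ≤ l i e := by
    intro e i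
    simp only [T, Finset.mem_filter]
  have hcomp : ∀ e ∈ G', ∀ f ∈ G', (T e).card ≤ (T f).card → T e ⊆ T f := by
    intro e he f hf hcard i hie
    by_contra hif
    have hnot : ¬ T f ⊆ T e := by
      intro hsub
      have : (T f).card < (T e).card := Finset.card_lt_card
        (Finset.ssubset_iff_subset_ne.2 ⟨hsub, fun heq => hif (heq ▸ hie)⟩)
      omega
    rw [Finset.not_subset] at hnot
    obtain ⟨i', hi'f, hi'e⟩ := hnot
    rw [hT] at hie hif hi'f hi'e
    rw [hG'] at he hf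
    have h3 : r i f < τ i := by
      by_contra h4
      exact hf.2 i hie.1 ⟨by
        by_contra h5
        exact hif ⟨hie.1, by omega⟩, by omega⟩
    have h4 : r i' e < τ i' := by
      by_contra h4
      exact he.2 i' hi'f.1 ⟨by
        by_contra h5
        exact hi'e ⟨hi'f.1, by omega⟩, by omega⟩
    exact C.no2 e (hG he.1) f (hG hf.1) ⟨i', hi'f.1, by omega⟩ ⟨i, hie.1, by omega⟩
  refine ⟨τ, ?_, ?_⟩
  · obtain ⟨e, he, hmin⟩ := Finset.exists_min_image G' (fun e => (T e).card) hne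
    have he' := (hG' e).1 he
    by_cases hTe : (T e).Nonempty
    · exfalso
      obtain ⟨i, hi⟩ := hTe
      have hiI := ((hT e i).1 hi).1
      apply (hτ i hiI).1
      refine hM.mono ?_ le_rfl
      rintro f ⟨hf, hlt⟩
      apply hsplit f hf
      intro hfG'
      have h2 := hcomp e he f hfG' (hmin f hfG') hi
      rw [hT] at h2
      have := C.le i f
      omega
    · refine ⟨e, he'.1, fun i hi => ?_⟩
      rw [Finset.not_nonempty_iff_eq_empty] at hTe
      have h2 : i ∉ T e := by rw [hTe]; exact Finset.notMem_empty i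
      rw [hT] at h2
      by_contra h3
      exact he'.2 i hi ⟨by
        by_contra h4
        exact h2 ⟨hi, by omega⟩, by omega⟩
  · obtain ⟨e, he, hmax⟩ := Finset.exists_max_image G' (fun e => (T e).card) hne
    have he' := (hG' e).1 he
    by_cases hTe : I ⊆ T e
    · refine ⟨e, he'.1, fun i hi => ((hT e i).1 (hTe hi)).2⟩
    · exfalso
      rw [Finset.not_subset] at hTe
      obtain ⟨i, hi, hi'⟩ := hTe
      apply (hτ i hi).2
      refine hM.mono ?_ le_rfl
      rintro f ⟨hf, hlt⟩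
      apply hsplit f hf
      intro hfG'
      have h2 := hcomp f hfG' e he (hmax f hfG')
      exact hi' (h2 ((hT f i).2 ⟨hi, hlt⟩))

/-- the induction step -/
theorem step [Fintype E] (C : Ctx ι E l r I F c) {i0 : ι} (hi0 : i0 ∈ I) {B : ℕ}
    (hB : B = (2 * I.card + 1) * c) :
    Col (Arc I l r) F (1 + 3 * (6 * B + 13 * c)) := by
  classical
  rcases F.eq_empty_or_nonempty with hF | ⟨e0, he0⟩
  · rw [hF]
    exact Col.empty _ _
  have hcard : 1 ≤ I.card := Finset.card_pos.2 ⟨i0, hi0⟩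
  have hB2 : B = I.card * c + I.card * c + c := by rw [hB]; ring
  have hB3 : (I.card + 2) * c ≤ B := by
    rw [hB2]
    have : (I.card + 2) * c = I.card * c + c + c := by ring
    rw [this]
    have : 1 * c ≤ I.card * c := Nat.mul_le_mul_right c hcard
    omega
  obtain ⟨N, t, ht0, htlt, hbig, hsm, hlast⟩ := C.slots hi0 B
  have htm : ∀ j k, j ≤ k → k ≤ N → t j ≤ t k := by
    intro j k hjk
    induction k, hjk using Nat.le_induction with
    | base => intro _; exact le_rfl
    | succ k hk ih =>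
      intro hkN
      have h1 := ih (by omega)
      have h2 := htlt k (by omega)
      omega
  have hmed : ∀ j, ∃ (τ : ι → ℕ) (a b : E), j < N →
      (a ∈ {e | e ∈ F ∧ t j ≤ l i0 e ∧ r i0 e < t (j + 1)} ∧ ∀ i ∈ I, r i a < τ i) ∧
      (b ∈ {e | e ∈ F ∧ t j ≤ l i0 e ∧ r i0 e < t (j + 1)} ∧ ∀ i ∈ I, τ i ≤ l i b) := by
    intro j
    by_cases hj : j < N
    · obtain ⟨τ, ⟨a, ha, ha'⟩, b, hb, hb'⟩ := C.medians (fun e he => he.1) hB3 (hbig j hj)
      exact ⟨τ, a, b, fun _ => ⟨⟨ha, ha'⟩, hb, hb'⟩⟩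
    · exact ⟨fun _ => 0, e0, e0, fun h => absurd h hj⟩
  choose τ a b hab using hmed
  have haF : ∀ j < N, a j ∈ F ∧ t j ≤ l i0 (a j) ∧ r i0 (a j) < t (j + 1) :=
    fun j hj => (hab j hj).1.1
  have haτ : ∀ j < N, ∀ i ∈ I, r i (a j) < τ j i := fun j hj => (hab j hj).1.2
  have hbF : ∀ j < N, b j ∈ F ∧ t j ≤ l i0 (b j) ∧ r i0 (b j) < t (j + 1) :=
    fun j hj => (hab j hj).2.1
  have hbτ : ∀ j < N, ∀ i ∈ I, τ j i ≤ l i (b j) := fun j hj => (hab j hj).2.2
  have hlt : ∀ j k, j < k → k < N → ∀ i ∈ I, τ j i < τ k i := by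
    intro j k hjk hk i hi
    by_contra hcon
    have h1 := haτ k hk i hi
    have h2 := hbτ j (by omega) i hi
    have h3 := (hbF j (by omega)).2.2
    have h4 := (haF k hk).2.1
    have h5 := htm (j + 1) k (by omega) (by omega)
    exact C.no2 (a k) (haF k hk).1 (b j) (hbF j (by omega)).1 ⟨i, hi, by omega⟩
      ⟨i0, hi0, by omega⟩
  have hle : ∀ j k, j ≤ k → k < N → ∀ i ∈ I, τ j i ≤ τ k i := by
    intro j k hjk hk i hi
    rcases hjk.eq_or_lt with rfl | h
    · exact le_rfl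
    · exact (hlt j k h hk i hi).le
  -- the probes
  let G : ℕ → Set E := fun p => {e | (e ∈ F ∧ t (p + 1) ≤ l i0 e ∧ r i0 e < t (p + 1 + 1)) ∧
    ∀ i ∈ I, τ p i ≤ l i e ∧ r i e < τ (p + 2) i}
  have hG : ∀ p, p + 2 < N → ¬ Col (Arc I l r) (G p) c := by
    intro p hp hcol
    apply hbig (p + 1) (by omega)
    have h1 : Col (Arc I l r) {e | ∃ i ∈ I, e ∈ {e | e ∈ F ∧ l i e < τ (p + 2) i ∧
        τ (p + 2) i ≤ r i e}} (I.card * c) :=
      Col.biUnion I fun i hi => C.stab hi (fun e he => he.1) _ (fun e he => he.2)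
    have h2 : Col (Arc I l r) {e | ∃ i ∈ I, e ∈ {e | e ∈ F ∧ l i e < τ p i ∧
        τ p i ≤ r i e}} (I.card * c) :=
      Col.biUnion I fun i hi => C.stab hi (fun e he => he.1) _ (fun e he => he.2)
    refine ((h1.union h2).union hcol).mono ?_ (by omega)
    rintro e ⟨heF, he1, he2⟩
    by_cases h3 : ∀ i ∈ I, τ p i ≤ l i e ∧ r i e < τ (p + 2) i
    · exact Or.inr ⟨⟨heF, he1, he2⟩, h3⟩
    · left
      push Not at h3
      obtain ⟨i, hi, h3⟩ := h3
      have h4 : ¬ τ (p + 2) i ≤ l i e := by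
        intro h4
        have h5 := haτ (p + 2) hp i hi
        have h6 := (haF (p + 2) hp).2.1
        exact C.no2 (a (p + 2)) (haF (p + 2) hp).1 e heF ⟨i, hi, by omega⟩
          ⟨i0, hi0, lt_of_lt_of_le he2 h6⟩
      have h5 : ¬ r i e < τ p i := by
        intro h5
        have h6 := hbτ p (by omega) i hi
        have h7 := (hbF p (by omega)).2.2
        exact C.no2 e heF (b p) (hbF p (by omega)).1 ⟨i, hi, by omega⟩
          ⟨i0, hi0, lt_of_lt_of_le h7 he1⟩
      by_cases h6 : τ p i ≤ l i e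
      · left
        exact ⟨i, hi, heF, by omega, h3 h6⟩
      · right
        exact ⟨i, hi, heF, by omega, by omega⟩
  have hGne : ∀ p, p + 2 < N → ∃ g, g ∈ G p := by
    intro p hp
    by_contra hcon
    push Not at hcon
    exact hG p hp ((Col.empty _ c).mono (fun g hg => absurd hg (hcon g)) le_rfl)
  have step5 : ∀ e ∈ F, ∀ i ∈ I, ∀ i' ∈ I, ∀ p, p + 2 < N → τ (p + 2) i ≤ l i e →
      r i' e < τ p i' → False := by
    intro e he i hi i' hi' p hp h1 h2
    obtain ⟨g, hg⟩ := hGne p hp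
    have h3 := (hg.2 i hi).2
    have h4 := (hg.2 i' hi').1
    exact C.no2 g hg.1.1 e he ⟨i, hi, by omega⟩ ⟨i', hi', by omega⟩
  -- the index
  have hexα : ∀ e : E, ∃ j, N ≤ j ∨ ∀ i ∈ I, l i e < τ j i := fun e => ⟨N, Or.inl le_rfl⟩
  let α : E → ℕ := fun e => Nat.find (hexα e)
  have hαN : ∀ e, α e ≤ N := fun e => Nat.find_min' (hexα e) (Or.inl le_rfl)
  have hα1 : ∀ e j, j < α e → j < N ∧ ∃ i ∈ I, τ j i ≤ l i e := by
    intro e j hj
    have := Nat.find_min (hexα e) hj
    push Not at this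
    exact this
  have hα2 : ∀ e, α e < N → ∀ i ∈ I, l i e < τ (α e) i := by
    intro e he
    rcases Nat.find_spec (hexα e) with h | h
    · exact absurd h (not_le.2 he)
    · exact h
  -- long elements
  let Long : E → Prop := fun e => ∃ j < N, ∀ i ∈ I, l i e < τ j i ∧ τ j i ≤ r i e
  have hlong : Col (Arc I l r) {e | e ∈ F ∧ Long e} 1 := by
    have hch : ∀ e, ∃ j, Long e → j < N ∧ ∀ i ∈ I, l i e < τ j i ∧ τ j i ≤ r i e := by
      intro e
      by_cases h : Long e
      · obtain ⟨j, hj⟩ := h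
        exact ⟨j, fun _ => hj⟩
      · exact ⟨0, fun h' => absurd h' h⟩
    choose co hco using hch
    refine ⟨fun _ => 0, co, fun _ _ => Nat.zero_lt_one, ?_⟩
    rintro e ⟨_, he⟩ f ⟨_, hf⟩ ⟨i, hi, hef⟩ _
    by_contra hcon
    have h1 := ((hco e he).2 i hi).2
    have h2 := ((hco f hf).2 i hi).1
    have h3 := hle (co f) (co e) (by omega) (hco e he).1 i hi
    omega
  have hshort : ∀ e, ¬ Long e → α e < N → ∃ i ∈ I, r i e < τ (α e) i := by
    intro e he h1
    by_contra hcon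
    push Not at hcon
    exact he ⟨α e, h1, fun i hi => ⟨hα2 e h1 i hi, hcon i hi⟩⟩
  have hclass : ∀ s, Col (Arc I l r) {e | e ∈ F ∧ ¬ Long e ∧ α e % 3 = s}
      (6 * B + 13 * c) := by
    intro s
    refine Col.layers α ?_ ?_
    · rintro x ⟨hx, hxl, hxs⟩ y ⟨hy, hyl, hys⟩ hxy
      by_contra hcon
      have h1 : α y + 3 ≤ α x := by omega
      have h2 : α y + 2 < N := by
        have := hαN x
        omega
      apply hG (α y) h2
      refine (C.between hy hx hxy).mono ?_ le_rfl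
      intro g hg
      refine ⟨hg.1.1, ?_, ?_⟩
      · obtain ⟨i, hi, h3⟩ := hshort y hyl (by omega)
        exact ⟨i, hi, lt_of_lt_of_le h3 (hg.2 i hi).1⟩
      · obtain ⟨_, i, hi, h3⟩ := hα1 x (α y + 2) (by omega)
        exact ⟨i, hi, lt_of_lt_of_le (hg.2 i hi).2 h3⟩
    · intro q
      -- windows on line `i0`
      let W : ℕ → Set E := fun j => {e | e ∈ F ∧ l i0 e < t j ∧ t j ≤ r i0 e} ∪
        {e | e ∈ F ∧ j ≤ N ∧ t j ≤ l i0 e ∧ (j < N → r i0 e < t (j + 1))}
      have hW : ∀ j, Col (Arc I l r) (W j) (c + (B + c)) := by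
        intro j
        refine Col.union (C.stab hi0 (fun e he => he.1) _ (fun e he => he.2)) ?_
        rcases Nat.lt_trichotomy j N with h | h | h
        · refine (hsm j h).mono ?_ le_rfl
          rintro e ⟨h1, h2, h3, h4⟩
          exact ⟨h1, h3, h4 h⟩
        · refine hlast.mono ?_ (by omega)
          rintro e ⟨h1, h2, h3, h4⟩
          rw [← h]
          exact ⟨h1, h3⟩
        · refine (Col.empty _ _).mono ?_ le_rfl
          rintro e ⟨h1, h2, h3, h4⟩
          omega
      have hwin := Col.biUnion (A := Arc I l r) (Finset.Ico (q - 3) (q + 3)) (F := W)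
        (k := c + (B + c)) (fun j _ => hW j)
      have hst : Col (Arc I l r) {e | e ∈ F ∧ l i0 e < t (q + 3) ∧ t (q + 3) ≤ r i0 e} c :=
        C.stab hi0 (fun e he => he.1) _ (fun e he => he.2)
      refine (hst.union hwin).mono ?_ ?_
      · rintro e ⟨⟨heF, hel, hes⟩, heq⟩
        have hlow : t (q - 3) ≤ r i0 e := by
          rcases Nat.lt_or_ge q 3 with hq | hq
          · have : q - 3 = 0 := by omega
            rw [this, ht0]
            exact Nat.zero_le _
          · obtain ⟨h1, i, hi, h2⟩ := hα1 e (q - 1) (by omega)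
            have h3 : τ (q - 3) i0 ≤ r i0 e := by
              by_contra hcon
              have h4 : q - 3 + 2 = q - 1 := by omega
              exact step5 e heF i hi i0 hi0 (q - 3) (by omega) (by rw [h4]; exact h2) (by omega)
            have h4 := haτ (q - 3) (by omega) i0 hi0
            have h5 := (haF (q - 3) (by omega)).2.1
            have h6 := C.le i0 (a (q - 3))
            omega
        have hup : q + 2 < N → l i0 e < t (q + 3) := by
          intro hq
          obtain ⟨i, hi, h1⟩ := hshort e hel (by omega)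
          rw [heq] at h1
          have h2 : ¬ τ (q + 2) i0 ≤ l i0 e := fun h2 => step5 e heF i0 hi0 i hi q hq h2 h1
          have h3 := hbτ (q + 2) hq i0 hi0
          have h4 := (hbF (q + 2) hq).2.2
          have h5 := C.le i0 (b (q + 2))
          have h6 : t (q + 2 + 1) = t (q + 3) := rfl
          omega
        have hqN : q ≤ N := by
          rw [← heq]
          exact hαN e
        by_cases hc : q + 2 < N ∧ t (q + 3) ≤ r i0 e
        · exact Or.inl ⟨heF, hup hc.1, hc.2⟩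
        · right
          obtain ⟨J, hJN, hJ1, hJ2⟩ : ∃ J ≤ N, t J ≤ r i0 e ∧ ∀ j, J < j → j ≤ N → r i0 e < t j := by
            refine ⟨Nat.findGreatest (fun j => t j ≤ r i0 e) N, Nat.findGreatest_le N, ?_, ?_⟩
            · exact Nat.findGreatest_spec (P := fun j => t j ≤ r i0 e) (Nat.zero_le N)
                (by show t 0 ≤ r i0 e; rw [ht0]; exact Nat.zero_le _)
            · intro j hj hjN
              exact not_le.1 (Nat.findGreatest_is_greatest (P := fun j => t j ≤ r i0 e) hj hjN)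
          refine ⟨J, ?_, ?_⟩
          · rw [Finset.mem_Ico]
            constructor
            · by_contra hcon
              have := hJ2 (q - 3) (by omega) (by omega)
              omega
            · by_contra hcon
              apply hc
              exact ⟨by omega, (htm (q + 3) J (by omega) hJN).trans hJ1⟩
          · by_cases h7 : l i0 e < t J
            · exact Or.inl ⟨heF, h7, hJ1⟩
            · exact Or.inr ⟨heF, hJN, by omega, fun h8 => hJ2 (J + 1) (by omega) (by omega)⟩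
      · rw [Nat.card_Ico]
        have h1 : q + 3 - (q - 3) ≤ 6 := by omega
        have h2 := Nat.mul_le_mul_right (c + (B + c)) h1
        omega
  have hthree := Col.biUnion (A := Arc I l r) (Finset.range 3)
    (F := fun s => {e | e ∈ F ∧ ¬ Long e ∧ α e % 3 = s}) (fun s _ => hclass s)
  refine (hlong.union hthree).mono ?_ (by rw [Finset.card_range])
  intro e he
  by_cases h : Long e
  · exact Or.inl ⟨he, h⟩
  · exact Or.inr ⟨α e % 3, Finset.mem_range.2 (Nat.mod_lt _ (by omega)), he, h, rfl⟩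

end Ctx

theorem dichromAux (n : ℕ) : ∃ g : ℕ, ∀ (ι E : Type) [Fintype E] (l r : ι → E → ℕ),
    (∀ i e, l i e ≤ r i e) → ∀ I : Finset ι, I.card = n → ∀ F : Set E,
      (∀ e ∈ F, ∀ f ∈ F, Arc I l r e f → ¬ Arc I l r f e) → Col (Arc I l r) F g := by
  classical
  induction n with
  | zero =>
    refine ⟨1, ?_⟩
    intro ι E _ l r hle I hI F hF
    rw [Finset.card_eq_zero] at hI
    refine ⟨fun _ => 0, fun _ => 0, fun _ _ => Nat.zero_lt_one, ?_⟩
    rintro e _ f _ ⟨i, hi, _⟩
    rw [hI] at hi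
    exact absurd hi (Finset.notMem_empty i)
  | succ n ih =>
    obtain ⟨c, hc⟩ := ih
    refine ⟨1 + 3 * (6 * ((2 * (n + 1) + 1) * c) + 13 * c), ?_⟩
    intro ι E _ l r hle I hI F hF
    have C : Ctx ι E l r I F c := by
      refine ⟨hle, hF, ?_⟩
      intro i hi G hG hno
      have h1 := hc ι E l r hle (I.erase i) (by rw [Finset.card_erase_of_mem hi, hI]; rfl) G (by
        rintro e he f hf ⟨j, hj, hj'⟩ ⟨k, hk, hk'⟩
        exact hF e (hG he) f (hG hf) ⟨j, Finset.mem_of_mem_erase hj, hj'⟩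
          ⟨k, Finset.mem_of_mem_erase hk, hk'⟩)
      refine h1.congr ?_
      rintro e he f hf ⟨j, hj, hj'⟩
      refine ⟨j, Finset.mem_erase.2 ⟨?_, hj⟩, hj'⟩
      rintro rfl
      exact hno e he f hf hj'
    have hne : I.Nonempty := by
      rw [← Finset.card_pos]
      omega
    obtain ⟨i0, hi0⟩ := hne
    exact C.step hi0 (B := (2 * (n + 1) + 1) * c) (by rw [hI])

/-- THEOREM B: a union of `m` interval orders without 2-cycles is a union of boundedly many
acyclic classes. -/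
theorem dichrom (m : ℕ) : ∃ g : ℕ, ∀ (E : Type) [Fintype E] (l r : Fin m → E → ℕ),
    (∀ i e, l i e ≤ r i e) → ∀ F : Set E,
      (∀ e ∈ F, ∀ f ∈ F, (∃ i, r i e < l i f) → ¬ ∃ i, r i f < l i e) →
      Col (fun e f => ∃ i, r i e < l i f) F g := by
  obtain ⟨g, hg⟩ := dichromAux m
  refine ⟨g, ?_⟩
  intro E _ l r hle F hF
  have h1 := hg (Fin m) E l r hle Finset.univ (by simp) F (by
    rintro e he f hf ⟨i, _, hi⟩ ⟨j, _, hj⟩
    exact hF e he f hf ⟨i, hi⟩ ⟨j, hj⟩)
  refine h1.congr ?_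
  rintro e _ f _ ⟨i, hi⟩
  exact ⟨i, Finset.mem_univ i, hi⟩

end Pool.Agent.MP763071.M
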