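import Pool.Agent.Lib.MP_763071_co.M.Coarse
import Pool.Agent.Lib.MP_763071_co.M.Dichrom
import Pool.Agent.Lib.MP_763071_co.Two.Final

/-!
# MP_763071_co : posets without many pairwise incomparable long chains
-/

set_option autoImplicit false

namespace Pool.Agent.MP763071.M

open Pool.Agent.MP763071.KK
open Pool.Agent.MP763071.Two

/-- positions on a chain -/
theorem positions {P : Type} [Fintype P] [PartialOrder P] {C : Set P}
    (hC : IsChain (· ≤ ·) C) :
    ∃ l r : P → ℕ, ∀ x y, r x < l y ↔ ∃ w ∈ C, x ≤ w ∧ w ≤ y := by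
  classical
  obtain ⟨Cf, hCf⟩ : ∃ Cf : Finset P, ∀ w, w ∈ Cf ↔ w ∈ C :=
    ⟨Finset.univ.filter (fun w => w ∈ C), fun w => by
      simp only [Finset.mem_filter, Finset.mem_univ, true_and]⟩
  refine ⟨fun y => (Cf.filter (fun w => w ≤ y)).card,
    fun x => Cf.card - (Cf.filter (fun w => x ≤ w)).card, ?_⟩
  intro x y
  show Cf.card - (Cf.filter (fun w => x ≤ w)).card < (Cf.filter (fun w => w ≤ y)).card ↔ _
  have h1 : (Cf.filter (fun w => x ≤ w)).card ≤ Cf.card := Finset.card_filter_le _ _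
  constructor
  · intro h2
    have h3 : ¬ Disjoint (Cf.filter (fun w => x ≤ w)) (Cf.filter (fun w => w ≤ y)) := by
      intro h3
      have h4 := Finset.card_union_of_disjoint h3
      have h5 : (Cf.filter (fun w => x ≤ w) ∪ Cf.filter (fun w => w ≤ y)).card ≤ Cf.card :=
        Finset.card_le_card (Finset.union_subset (Finset.filter_subset _ _)
          (Finset.filter_subset _ _))
      omega
    rw [Finset.not_disjoint_iff] at h3
    obtain ⟨w, hw1, hw2⟩ := h3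
    rw [Finset.mem_filter] at hw1 hw2
    exact ⟨w, (hCf w).1 hw1.1, hw1.2, hw2.2⟩
  · rintro ⟨w, hw, hxw, hwy⟩
    have h2 : Cf ⊆ (Cf.filter (fun v => x ≤ v)) ∪ (Cf.filter (fun v => v ≤ y)) := by
      intro v hv
      rw [Finset.mem_union, Finset.mem_filter, Finset.mem_filter]
      rcases hC.total hw ((hCf v).1 hv) with h | h
      · exact Or.inl ⟨hv, hxw.trans h⟩
      · exact Or.inr ⟨hv, h.trans hwy⟩
    have h3 : 1 ≤ ((Cf.filter (fun v => x ≤ v)) ∩ (Cf.filter (fun v => v ≤ y))).card := by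
      apply Finset.card_pos.2
      refine ⟨w, ?_⟩
      rw [Finset.mem_inter, Finset.mem_filter, Finset.mem_filter]
      exact ⟨⟨(hCf w).2 hw, hxw⟩, (hCf w).2 hw, hwy⟩
    have h4 := Finset.card_union_add_card_inter (Cf.filter (fun v => x ≤ v))
      (Cf.filter (fun v => v ≤ y))
    have h5 := Finset.card_le_card h2
    omega

/-- an injective monotone numbering -/
theorem numbering (P : Type) [Fintype P] [PartialOrder P] :
    ∃ f : P → ℕ, Function.Injective f ∧ ∀ a b, a ≤ b → f a ≤ f b := by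
  obtain ⟨f, h1, h2, _⟩ := linExt P (fun _ _ => False) (by
    rintro ⟨N, x, y, hN, hper, hS, hxy⟩
    exact hS 0)
  exact ⟨f, h1, h2⟩

/-- `m` chains which meet every high interval -/
theorem manyChains (n d m k : ℕ) : ∃ d0 : ℕ, ∀ (P : Type) [Fintype P] [PartialOrder P]
    (C : Fin m → Set P), (∀ i, IsChain (· ≤ ·) (C i)) →
    (∀ z : Fin (k + 1) → P, StrictMono z → ∃ i, ∃ w ∈ C i, z 0 ≤ w ∧ w ≤ z (Fin.last k)) →
    ¬ HasS P d → ¬ HasMinor (CG P) n → Rz P d0 := by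
  classical
  obtain ⟨g, hg⟩ := dichrom m
  let V : Type := (Fin m × Fin m → Fin (d + 3)) × Fin (g + 1)
  obtain ⟨d0, h0⟩ := core n (m + 1) (2 * k + 1) (Fintype.card V)
  refine ⟨d0, ?_⟩
  intro P _ _ C hC hmeet hS hmin
  rcases isEmpty_or_nonempty P with hP | hP
  · exact rz_of_isEmpty P d0
  obtain ⟨lam, hlam1, hlam2⟩ := numbering P
  -- the union of the chains
  let W : Set P := {w | ∃ i, w ∈ C i}
  have hM : Meet P W k := by
    intro w hw
    obtain ⟨i, v, hv, hv1, hv2⟩ := hmeet (fun i => w i) (by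
      intro i j hij
      exact hw i j hij (by have := j.2; omega))
    exact ⟨v, ⟨i, hv⟩, hv1, by simpa using hv2⟩
  have htp : ∀ w, ∃ i : Fin (m + 1), w ∈ W → ∃ j : Fin m, i = Fin.castSucc j ∧ w ∈ C j := by
    intro w
    by_cases h : w ∈ W
    · obtain ⟨j, hj⟩ := h
      exact ⟨Fin.castSucc j, fun _ => ⟨j, rfl, hj⟩⟩
    · exact ⟨0, fun h' => absurd h' h⟩
  choose tp htp' using htp
  -- Mirsky classes
  have hcl : ∀ p : Fin m × Fin m, ∃ cls : P → P → Fin (d + 3), ∀ x y x' y', ¬ x ≤ y →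
      ¬ x' ≤ y' → cls x y = cls x' y' → ¬ Prec (C p.1) (C p.2) (x', y') (x, y) :=
    fun p => classes (hC p.1) (hC p.2) d hS
  choose cl hcl' using hcl
  -- positions
  have hpos : ∀ i, ∃ l r : P → ℕ, ∀ x y, r x < l y ↔ ∃ w ∈ C i, x ≤ w ∧ w ≤ y :=
    fun i => positions (hC i)
  choose l r hlr using hpos
  let E : Type := {p : P × P // ¬ p.1 ≤ p.2}
  let A : E → E → Prop := fun e f => ∃ i, r i e.1.1 < l i f.1.2
  have hcol : ∀ v : Fin m × Fin m → Fin (d + 3),
      Col A {e : E | ∀ p, cl p e.1.1 e.1.2 = v p} g := by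
    intro v
    refine hg E (fun i e => l i e.1.2) (fun i e => r i e.1.1) ?_ _ ?_
    · intro i e
      by_contra hcon
      obtain ⟨w, _, h1, h2⟩ := (hlr i e.1.1 e.1.2).1 (not_le.1 hcon)
      exact e.2 (h1.trans h2)
    · rintro e he f hf ⟨i, hi⟩ ⟨j, hj⟩
      have h1 := (hlr i e.1.1 f.1.2).1 hi
      have h2 := (hlr j f.1.1 e.1.2).1 hj
      exact hcl' (i, j) f.1.1 f.1.2 e.1.1 e.1.2 f.2 e.2 ((hf (i, j)).trans (he (i, j)).symm)
        ⟨h1, h2⟩
  choose col rk hcr1 hcr2 using hcol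
  let cv : P → P → (Fin m × Fin m → Fin (d + 3)) := fun x y p => cl p x y
  let cc : P → P → V := fun x y => (cv x y,
    if h : ¬ x ≤ y then ⟨col (cv x y) ⟨(x, y), h⟩ % (g + 1), Nat.mod_lt _ (Nat.succ_pos g)⟩
    else ⟨0, Nat.succ_pos g⟩)
  refine h0 P hmin (fun x y => Fintype.equivFin V (cc x y)) fun s => ?_
  -- the class of the pair `e`
  let K : E → Prop := fun e => cc e.1.1 e.1.2 = (Fintype.equivFin V).symm s
  have hKcol : ∀ e f : E, K e → K f → cv e.1.1 e.1.2 = cv f.1.1 f.1.2 ∧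
      col (cv e.1.1 e.1.2) e = col (cv e.1.1 e.1.2) f := by
    intro e f he hf
    have h1 : cc e.1.1 e.1.2 = cc f.1.1 f.1.2 := he.trans hf.symm
    have h2 : cv e.1.1 e.1.2 = cv f.1.1 f.1.2 := congrArg Prod.fst h1
    have h3 := congrArg Prod.snd h1
    have h4 : (if h : ¬ e.1.1 ≤ e.1.2 then (⟨col (cv e.1.1 e.1.2) ⟨(e.1.1, e.1.2), h⟩ % (g + 1),
        Nat.mod_lt _ (Nat.succ_pos g)⟩ : Fin (g + 1)) else ⟨0, Nat.succ_pos g⟩) =
        (if h : ¬ f.1.1 ≤ f.1.2 then (⟨col (cv f.1.1 f.1.2) ⟨(f.1.1, f.1.2), h⟩ % (g + 1),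
        Nat.mod_lt _ (Nat.succ_pos g)⟩ : Fin (g + 1)) else ⟨0, Nat.succ_pos g⟩) := h3
    rw [dif_pos e.2, dif_pos f.2, Fin.mk.injEq] at h4
    refine ⟨h2, ?_⟩
    rw [← h2] at h4
    have h5 : col (cv e.1.1 e.1.2) e < g := hcr1 _ e (fun p => rfl)
    have h6 : col (cv e.1.1 e.1.2) f < g := hcr1 _ f (fun p => (congrFun h2 p).symm)
    have h7 : col (cv e.1.1 e.1.2) e % (g + 1) = col (cv e.1.1 e.1.2) f % (g + 1) := h4
    rwa [Nat.mod_eq_of_lt (by omega), Nat.mod_eq_of_lt (by omega)] at h7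
  -- the rank of a pair of the class
  let R : E → ℕ := fun e => rk (cv e.1.1 e.1.2) e
  have hR : ∀ e f : E, K e → K f → (∃ i, ∃ w ∈ C i, e.1.1 ≤ w ∧ w ≤ f.1.2) → R e < R f := by
    rintro e f he hf ⟨i, hw⟩
    obtain ⟨h1, h2⟩ := hKcol e f he hf
    have h3 := hcr2 (cv e.1.1 e.1.2) e (fun p => rfl) f (fun p => (congrFun h1 p).symm)
      ⟨i, (hlr i e.1.1 f.1.2).2 hw⟩ h2
    show rk (cv e.1.1 e.1.2) e < rk (cv f.1.1 f.1.2) f
    rw [← h1]
    exact h3
  -- the rank of an element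
  let ρ : P → ℕ := fun w =>
    (Finset.univ.filter (fun e : E => K e ∧ e.1.1 ≤ w)).sup (fun e => R e + 1)
  have hρ1 : ∀ w (e : E), K e → e.1.1 ≤ w → R e + 1 ≤ ρ w := by
    intro w e he hew
    exact Finset.le_sup (f := fun e => R e + 1)
      (Finset.mem_filter.2 ⟨Finset.mem_univ e, he, hew⟩)
  have hρ2 : ∀ w b, (∀ e : E, K e → e.1.1 ≤ w → R e + 1 ≤ b) → ρ w ≤ b := by
    intro w b hb
    apply Finset.sup_le
    intro e he
    rw [Finset.mem_filter] at he
    exact hb e he.2.1 he.2.2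
  have hρm : ∀ u v, u ≤ v → ρ u ≤ ρ v := by
    intro u v huv
    exact hρ2 u _ fun e he heu => hρ1 v e he (heu.trans huv)
  obtain ⟨L, hL⟩ : ∃ L : ℕ, ∀ w, lam w < L :=
    ⟨Finset.univ.sup lam + 1, fun w => Nat.lt_succ_of_le (Finset.le_sup (Finset.mem_univ w))⟩
  let key : P → ℕ := fun w => ρ w * L + lam w
  have hkey1 : ∀ u v, ρ u < ρ v → key u < key v := by
    intro u v huv
    show ρ u * L + lam u < ρ v * L + lam v
    have h1 := hL u
    have h2 : (ρ u + 1) * L ≤ ρ v * L := Nat.mul_le_mul_right L huv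
    have h3 : (ρ u + 1) * L = ρ u * L + L := by ring
    omega
  have hkeym : ∀ u v, u ≤ v → key u ≤ key v := by
    intro u v huv
    rcases (hρm u v huv).eq_or_lt with h1 | h1
    · show ρ u * L + lam u ≤ ρ v * L + lam v
      rw [h1]
      have := hlam2 u v huv
      omega
    · exact (hkey1 u v h1).le
  have hkeyi : ∀ u v, key u = key v → u = v := by
    intro u v huv
    rcases lt_trichotomy (ρ u) (ρ v) with h1 | h1 | h1
    · exact absurd huv (hkey1 u v h1).ne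
    · apply hlam1
      have h2 : ρ u * L + lam u = ρ v * L + lam v := huv
      rw [h1] at h2
      omega
    · exact absurd huv.symm (hkey1 v u h1).ne
  have hlin : LinOn W (fun u v => key u ≤ key v) :=
    ⟨fun u _ v _ huv => hkeym u v huv, fun u _ v _ => le_total _ _,
      fun u _ v _ h1 h2 => hkeyi u v (le_antisymm h1 h2),
      fun u _ v _ w _ h1 h2 => h1.trans h2⟩
  refine line (tp := tp) ?_ hM hlin _ ?_
  · intro u hu v hv huv
    obtain ⟨i, hi, hui⟩ := htp' u hu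
    obtain ⟨j, hj, hvj⟩ := htp' v hv
    have : i = j := by
      rw [hi, hj] at huv
      exact Fin.castSucc_injective m huv
    subst this
    exact (hC i).total hui hvj
  · rintro x y ⟨hxy, hcls⟩ w hw w' hw' hwy hxw' hle
    have hK : K ⟨(x, y), hxy⟩ := by
      show cc x y = (Fintype.equivFin V).symm s
      rw [← hcls, Equiv.symm_apply_apply]
    have h1 := hρ1 w' ⟨(x, y), hxy⟩ hK hxw'
    have h2 : ρ w ≤ R ⟨(x, y), hxy⟩ := by
      apply hρ2
      intro e he hew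
      obtain ⟨i, hi⟩ := hw
      exact hR e ⟨(x, y), hxy⟩ he hK ⟨i, w, hi, hew, hwy⟩
    have h3 := hkey1 w w' (by omega)
    omega

/-- posets without `r` pairwise incomparable `k`-chains -/
theorem noManyChains (n d r k : ℕ) : ∃ d0 : ℕ, ∀ (P : Type) [Fintype P] [PartialOrder P],
    (¬ ∃ z : Fin r → Fin k → P, (∀ i, StrictMono (z i)) ∧
      ∀ i j, i ≠ j → ∀ a b, ¬ z i a ≤ z j b) →
    ¬ HasS P d → ¬ HasMinor (CG P) n → Rz P d0 := by
  obtain ⟨M, f, hMf⟩ := coarse r k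
  obtain ⟨d0, h0⟩ := manyChains n d M f
  refine ⟨d0, ?_⟩
  intro P _ _ hno hS hmin
  obtain ⟨C, hC1, hC2⟩ := hMf P hno
  exact h0 P C hC1 hC2 hS hmin

end Pool.Agent.MP763071.M
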